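import Mathlib
import Pool.Agent.Lib.SCV.Osgood

/-! Analytic tools on `ℂ²`: a quantitative inverse Lipschitz bound for automorphisms and
Taylor truncation with growth control. -/

open Filter Topology Set Function Metric

namespace Pool.Agent.MP_f7b0aa_an

open Pool.Agent.Lib.SCV

/-- `ℂ²` with the Euclidean norm. -/
abbrev E : Type := EuclideanSpace ℂ (Fin 2)

/-- Harnack type lower bound for a zero free entire function bounded on a disc. -/
theorem harnack {h : ℂ → ℂ} (hd : Differentiable ℂ h) (hne : ∀ z, h z ≠ 0) {M r : ℝ}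
    (hr : 0 < r) (hM : ∀ z, ‖z‖ < r → ‖h z‖ ≤ M) {z : ℂ} (hz : ‖z‖ ≤ r / 2) :
    ‖h 0‖ ^ 3 / (2 * M) ^ 2 ≤ ‖h z‖ := by
  have h0 : 0 < ‖h 0‖ := norm_pos_iff.2 (hne 0)
  have hM0 : ‖h 0‖ ≤ M := hM 0 (by simpa using hr)
  have hq : DifferentiableOn ℂ (fun w => deriv h w / h w) (ball 0 r) :=
    (hd.deriv.div hd hne).differentiableOn
  obtain ⟨φ, hφ0, hφ⟩ := hq.isExactOn_ball.with_val_at 0 0
  have hconst : ∀ w ∈ ball (0 : ℂ) r, h w * Complex.exp (-φ w) = h 0 := by
    have hder : ∀ w ∈ ball (0 : ℂ) r, HasDerivAt (fun w => h w * Complex.exp (-φ w)) 0 w := by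
      intro w hw
      have h1 := (hd w).hasDerivAt.mul (hφ w hw).neg.cexp
      refine h1.congr_deriv ?_
      have := hne w
      simp only [Pi.neg_apply]
      field_simp
      ring
    intro w hw
    have := isOpen_ball.is_const_of_deriv_eq_zero (convex_ball (0 : ℂ) r).isPreconnected
      (fun w hw => (hder w hw).differentiableAt.differentiableWithinAt)
      (fun w hw => (hder w hw).deriv) hw (mem_ball_self hr)
    simpa [hφ0] using this
  have hnorm : ∀ w ∈ ball (0 : ℂ) r, ‖h w‖ = ‖h 0‖ * Real.exp (φ w).re := by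
    intro w hw
    rw [← hconst w hw, norm_mul, Complex.norm_exp, mul_assoc, ← Real.exp_add]
    simp
  set A := Real.log (2 * M / ‖h 0‖) with hA
  have hq1 : 1 < 2 * M / ‖h 0‖ := by rw [lt_div_iff₀ h0]; linarith
  have hA0 : 0 < A := Real.log_pos hq1
  have hmaps : MapsTo φ (ball 0 r) {z | z.re ≤ A} := by
    intro w hw
    have h1 := hM w (by simpa using hw)
    rw [hnorm w hw] at h1
    change (φ w).re ≤ A
    rw [hA, Real.le_log_iff_exp_le (by linarith), le_div_iff₀ h0]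
    nlinarith
  have hzb : z ∈ ball (0 : ℂ) r := by rw [mem_ball_zero_iff]; linarith
  have hb := Complex.borelCaratheodory_zero hA0
    (fun w hw => (hφ w hw).differentiableAt.differentiableWithinAt) hmaps hr hzb hφ0
  have hb2 : ‖φ z‖ ≤ 2 * A := by
    refine hb.trans ?_
    rw [div_le_iff₀ (by linarith)]
    nlinarith
  have hre : -(2 * A) ≤ (φ z).re := by
    have := (abs_le.1 (Complex.abs_re_le_norm (φ z))).1
    linarith
  rw [hnorm z hzb]
  have he : Real.exp (-(2 * A)) = (‖h 0‖ / (2 * M)) ^ 2 := by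
    rw [Real.exp_neg, two_mul, Real.exp_add, hA, Real.exp_log (by linarith)]
    have : 0 < M := by linarith
    field_simp
  calc ‖h 0‖ ^ 3 / (2 * M) ^ 2 = ‖h 0‖ * Real.exp (-(2 * A)) := by rw [he]; ring
    _ ≤ _ := by gcongr

/-- The point of `ℂ²` with coordinates `a`, `b`. -/
noncomputable def pt (a b : ℂ) : E := !₂[a, b]

@[simp] theorem pt_zero (a b : ℂ) : pt a b 0 = a := rfl
@[simp] theorem pt_one (a b : ℂ) : pt a b 1 = b := rfl

theorem ext2 {v w : E} (h0 : v 0 = w 0) (h1 : v 1 = w 1) : v = w := by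
  ext i; fin_cases i
  · exact h0
  · exact h1

theorem norm_sq2 (v : E) : ‖v‖ ^ 2 = ‖v 0‖ ^ 2 + ‖v 1‖ ^ 2 := by
  rw [EuclideanSpace.norm_sq_eq, Fin.sum_univ_two]

theorem co_le (v : E) (i : Fin 2) : ‖v i‖ ≤ ‖v‖ := PiLp.norm_apply_le v i

theorem norm_le_add (v : E) : ‖v‖ ≤ ‖v 0‖ + ‖v 1‖ := by
  refine abs_le_of_sq_le_sq' ?_ (by positivity) |>.2
  rw [norm_sq2]; nlinarith [mul_nonneg (norm_nonneg (v 0)) (norm_nonneg (v 1))]

theorem norm_pt_left (a : ℂ) : ‖pt a 0‖ = ‖a‖ := by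
  refine le_antisymm ?_ (co_le (pt a 0) 0)
  simpa using norm_le_add (pt a 0)

theorem norm_pt_right (a : ℂ) : ‖pt 0 a‖ = ‖a‖ := by
  refine le_antisymm ?_ (co_le (pt 0 a) 1)
  simpa using norm_le_add (pt 0 a)

theorem eq_smul_add (v : E) : v = v 0 • pt 1 0 + v 1 • pt 0 1 :=
  ext2 (by simp) (by simp)

theorem diff_co (i : Fin 2) : Differentiable ℂ fun v : E => v i :=
  (EuclideanSpace.proj i : E →L[ℂ] ℂ).differentiable

theorem diff_pt {X : Type*} [NormedAddCommGroup X] [NormedSpace ℂ X] {a b : X → ℂ}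
    (ha : Differentiable ℂ a) (hb : Differentiable ℂ b) :
    Differentiable ℂ fun x => pt (a x) (b x) := by
  have : (fun x => pt (a x) (b x)) = fun x => a x • pt 1 0 + b x • pt 0 1 :=
    funext fun x => eq_smul_add _
  rw [this]
  exact (ha.smul_const _).add (hb.smul_const _)

/-- The determinant of a linear map of `ℂ²`. -/
noncomputable def dt (L : E →L[ℂ] E) : ℂ :=
  L (pt 1 0) 0 * L (pt 0 1) 1 - L (pt 0 1) 0 * L (pt 1 0) 1

theorem lin_co (L : E →L[ℂ] E) (v : E) (i : Fin 2) :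
    L v i = v 0 * L (pt 1 0) i + v 1 * L (pt 0 1) i := by
  conv_lhs => rw [eq_smul_add v]
  simp

theorem ent_le {L : E →L[ℂ] E} {b : ℝ} (hL : ‖L‖ ≤ b) (i : Fin 2) :
    ‖L (pt 1 0) i‖ ≤ b ∧ ‖L (pt 0 1) i‖ ≤ b := by
  constructor
  · refine (co_le _ i).trans ((L.le_opNorm _).trans ?_)
    rw [norm_pt_left]; simpa using hL
  · refine (co_le _ i).trans ((L.le_opNorm _).trans ?_)
    rw [norm_pt_right]; simpa using hL

theorem dt_le {L : E →L[ℂ] E} (hL : ‖L‖ ≤ 4) : ‖dt L‖ ≤ 32 := by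
  obtain ⟨a0, b0⟩ := ent_le hL 0
  obtain ⟨a1, b1⟩ := ent_le hL 1
  refine (norm_sub_le _ _).trans ?_
  rw [norm_mul, norm_mul]
  have h1 := mul_le_mul a0 b1 (norm_nonneg _) (by norm_num)
  have h2 := mul_le_mul b0 a1 (norm_nonneg _) (by norm_num)
  linarith

theorem dt_mul_le {L : E →L[ℂ] E} (hL : ‖L‖ ≤ 4) (v : E) : ‖dt L‖ * ‖v‖ ≤ 16 * ‖L v‖ := by
  obtain ⟨a0, b0⟩ := ent_le hL 0
  obtain ⟨a1, b1⟩ := ent_le hL 1
  have u0 := co_le (L v) 0
  have u1 := co_le (L v) 1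
  have e0 : dt L * v 0 = L (pt 0 1) 1 * L v 0 - L (pt 0 1) 0 * L v 1 := by
    rw [lin_co L v 0, lin_co L v 1, dt]; ring
  have e1 : dt L * v 1 = L (pt 1 0) 0 * L v 1 - L (pt 1 0) 1 * L v 0 := by
    rw [lin_co L v 0, lin_co L v 1, dt]; ring
  have f0 : ‖dt L‖ * ‖v 0‖ ≤ 8 * ‖L v‖ := by
    rw [← norm_mul, e0]
    refine (norm_sub_le _ _).trans ?_
    rw [norm_mul, norm_mul]
    have h1 := mul_le_mul b1 u0 (norm_nonneg _) (by norm_num)
    have h2 := mul_le_mul b0 u1 (norm_nonneg _) (by norm_num)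
    linarith
  have f1 : ‖dt L‖ * ‖v 1‖ ≤ 8 * ‖L v‖ := by
    rw [← norm_mul, e1]
    refine (norm_sub_le _ _).trans ?_
    rw [norm_mul, norm_mul]
    have h1 := mul_le_mul a0 u1 (norm_nonneg _) (by norm_num)
    have h2 := mul_le_mul a1 u0 (norm_nonneg _) (by norm_num)
    linarith
  have := mul_le_mul_of_nonneg_left (norm_le_add v) (norm_nonneg (dt L))
  linarith

theorem dt_ge {L : E →L[ℂ] E} {c : ℝ} (hc : 0 ≤ c) (hL : ∀ v, c * ‖v‖ ≤ ‖L v‖) :
    c ^ 2 / 2 ≤ ‖dt L‖ := by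
  have e0 : L (pt (L (pt 0 1) 1) (-L (pt 1 0) 1)) = pt (dt L) 0 := by
    refine ext2 ?_ ?_ <;> rw [lin_co] <;> simp [dt] <;> ring
  have e1 : L (pt (-L (pt 0 1) 0) (L (pt 1 0) 0)) = pt 0 (dt L) := by
    refine ext2 ?_ ?_ <;> rw [lin_co] <;> simp [dt] <;> ring
  have f0 := hL (pt (L (pt 0 1) 1) (-L (pt 1 0) 1))
  have f1 := hL (pt (-L (pt 0 1) 0) (L (pt 1 0) 0))
  rw [e0, norm_pt_left] at f0
  rw [e1, norm_pt_right] at f1
  have g0 := mul_le_mul_of_nonneg_left (co_le (pt (L (pt 0 1) 1) (-L (pt 1 0) 1)) 1) hc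
  have g1 := mul_le_mul_of_nonneg_left (co_le (pt (-L (pt 0 1) 0) (L (pt 1 0) 0)) 1) hc
  rw [pt_one] at g0 g1
  rw [norm_neg] at g0
  have k := hL (pt 1 0)
  rw [norm_pt_left, norm_one, mul_one] at k
  have k2 := mul_le_mul_of_nonneg_left (k.trans (norm_le_add _)) hc
  nlinarith

theorem dt_ne {L : E →L[ℂ] E} (hL : Injective L) : dt L ≠ 0 := by
  intro h
  have e0 : L (pt (L (pt 0 1) 1) (-L (pt 1 0) 1)) = L 0 := by
    rw [dt] at h
    refine ext2 ?_ ?_ <;> rw [lin_co] <;> simp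
    · linear_combination h
    · ring
  have e1 : L (pt (-L (pt 0 1) 0) (L (pt 1 0) 0)) = L 0 := by
    rw [dt] at h
    refine ext2 ?_ ?_ <;> rw [lin_co] <;> simp
    · ring
    · linear_combination h
  have f0 := congrArg (fun v : E => v 1) (hL e0)
  have f1 := congrArg (fun v : E => v 1) (hL e1)
  simp only [pt_one, PiLp.zero_apply, neg_eq_zero] at f0 f1
  have : L (pt 1 0) = L 0 := by
    rw [map_zero]; exact ext2 f1 f0
  have := congrArg (fun v : E => v 0) (hL this)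
  simp at this

theorem fderiv_inj {g : E ≃ E} (hg : Differentiable ℂ g) (hi : Differentiable ℂ g.symm) (x : E) :
    Injective (fderiv ℂ g x) := by
  have h1 : fderiv ℂ (g.symm ∘ g) x = (fderiv ℂ g.symm (g x)).comp (fderiv ℂ g x) :=
    fderiv_comp x (hi _) (hg _)
  rw [g.symm_comp_self, fderiv_id] at h1
  intro v w h
  have hv := congrArg (fun L : E →L[ℂ] E => L v) h1
  have hw := congrArg (fun L : E →L[ℂ] E => L w) h1
  simp only [ContinuousLinearMap.id_apply, ContinuousLinearMap.comp_apply] at hv hw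
  rw [hv, hw, h]

/-- The constant in the inverse Lipschitz bound. -/
noncomputable def mu (c : ℝ) : ℝ := c ^ 6 / 2 ^ 19

theorem fderiv_lower {g : E ≃ E} (hg : Differentiable ℂ g) (hi : Differentiable ℂ g.symm) {c : ℝ}
    (hc : 0 < c) (hb : ∀ z, ‖z‖ < 1 → c * ‖z‖ ≤ ‖g z‖ ∧ ‖g z‖ ≤ ‖z‖) {x : E} (hx : ‖x‖ ≤ 1 / 4)
    (v : E) : mu c * ‖v‖ ≤ ‖fderiv ℂ g x v‖ := by
  have hg0 : g 0 = 0 := by simpa using (hb 0 (by simp)).2
  have hup : ∀ y : E, ‖y‖ < 1 / 2 → ‖fderiv ℂ g y‖ ≤ 4 := by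
    intro y hy
    have := norm_fderiv_le_of_bound (c := y) (r := 1 / 2) (M := 1) (by norm_num)
      hg.differentiableOn (fun z hz => by
        have h1 : ‖z‖ < 1 := by
          have := norm_le_norm_add_norm_sub' z y
          rw [mem_ball_iff_norm] at hz
          linarith
        exact (hb z h1).2.trans h1.le)
    linarith
  have hlow : ∀ w, c * ‖w‖ ≤ ‖fderiv ℂ g 0 w‖ := by
    intro w
    have key : ∀ t : ℝ, 0 < t → t * ‖w‖ < 1 → c * ‖w‖ ≤ ‖fderiv ℂ g 0 w‖ + 4 * t * ‖w‖ ^ 2 := by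
      intro t ht htw
      have hn : ‖(t : ℂ) • w‖ = t * ‖w‖ := by
        rw [norm_smul, Complex.norm_real, Real.norm_of_nonneg ht.le]
      have h1 := norm_taylor_two_le (c := 0) (r := 1) (M := 1) (z := (t : ℂ) • w)
        hg.differentiableOn (fun z hz => by
          rw [mem_ball_zero_iff] at hz
          exact (hb z hz).2.trans hz.le) (by rw [mem_ball_zero_iff, hn]; exact htw)
      rw [hg0, sub_zero, sub_zero, (fderiv ℂ g 0).map_smul, hn] at h1
      have h2 := (hb _ (by rw [hn]; exact htw)).1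
      have h3 := norm_le_norm_add_norm_sub' (g ((t : ℂ) • w)) ((t : ℂ) • fderiv ℂ g 0 w)
      rw [norm_smul, Complex.norm_real, Real.norm_of_nonneg ht.le] at h3
      rw [hn] at h2
      refine le_of_mul_le_mul_left ?_ ht
      nlinarith
    have hlim : Tendsto (fun t : ℝ => ‖fderiv ℂ g 0 w‖ + 4 * t * ‖w‖ ^ 2) (𝓝[>] 0)
        (𝓝 (‖fderiv ℂ g 0 w‖ + 4 * 0 * ‖w‖ ^ 2)) :=
      (Continuous.tendsto (by fun_prop) 0).mono_left nhdsWithin_le_nhds
    have hev : ∀ᶠ t : ℝ in 𝓝[>] 0, t * ‖w‖ < 1 := by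
      have : Tendsto (fun t : ℝ => t * ‖w‖) (𝓝[>] 0) (𝓝 (0 * ‖w‖)) :=
        (Continuous.tendsto (by fun_prop) 0).mono_left nhdsWithin_le_nhds
      exact this.eventually (gt_mem_nhds (by simp))
    have := ge_of_tendsto hlim ((hev.and self_mem_nhdsWithin).mono fun t ht => key t ht.2 ht.1)
    simpa using this
  have hdet : c ^ 6 / 2 ^ 15 ≤ ‖dt (fderiv ℂ g x)‖ := by
    have hap : ∀ (u : E) (i : Fin 2),
        Differentiable ℂ fun l : ℂ => fderiv ℂ g (l • (4 : ℂ) • x) u i := by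
      intro u i
      have h1 : Differentiable ℂ fun y => fderiv ℂ g y u := differentiableOn_univ.1
        (differentiableOn_fderiv_apply isOpen_univ hg.differentiableOn u)
      exact (diff_co i).comp (h1.comp (differentiable_id.smul_const _))
    have hd : Differentiable ℂ fun l : ℂ => dt (fderiv ℂ g (l • (4 : ℂ) • x)) :=
      ((hap _ _).mul (hap _ _)).sub ((hap _ _).mul (hap _ _))
    have h := harnack hd (fun z => dt_ne (fderiv_inj hg hi _)) (M := 32) (r := 1 / 2)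
      (by norm_num) (fun z hz => dt_le (hup _ (by
        rw [norm_smul, norm_smul]
        have : ‖(4 : ℂ)‖ = 4 := by simp
        rw [this]
        nlinarith [norm_nonneg z, norm_nonneg x]))) (z := 1 / 4) (by norm_num)
    have e : (1 / 4 : ℂ) • (4 : ℂ) • x = x := by rw [smul_smul]; simp
    simp only [zero_smul, e] at h
    have h0 := dt_ge hc.le hlow
    calc c ^ 6 / 2 ^ 15 = (c ^ 2 / 2) ^ 3 / (2 * 32) ^ 2 := by ring
      _ ≤ ‖dt (fderiv ℂ g 0)‖ ^ 3 / (2 * 32) ^ 2 := by gcongr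
      _ ≤ _ := h
  have h1 := dt_mul_le (hup x (by linarith)) v
  have h2 := mul_le_mul_of_nonneg_right hdet (norm_nonneg v)
  unfold mu
  linarith

/-- Quantitative inverse Lipschitz bound. -/
theorem inv_lip {g : E ≃ E} (hg : Differentiable ℂ g) (hi : Differentiable ℂ g.symm) {c : ℝ}
    (hc : 0 < c) (hc1 : c ≤ 1) (hb : ∀ z, ‖z‖ < 1 → c * ‖z‖ ≤ ‖g z‖ ∧ ‖g z‖ ≤ ‖z‖) {x w : E}
    (hx : ‖x‖ ≤ 1 / 4) (hw : ‖w - g x‖ < mu c ^ 2 / 64) :
    ‖g.symm w - x‖ ≤ 2 / mu c * ‖w - g x‖ := by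
  have hmu : 0 < mu c := by unfold mu; positivity
  have hmu1 : mu c ≤ 1 := by
    unfold mu
    have := pow_le_one₀ (n := 6) hc.le hc1
    linarith
  have hexp : ∀ y, ‖y - x‖ ≤ mu c / 32 → mu c / 2 * ‖y - x‖ ≤ ‖g y - g x‖ := by
    intro y hy
    have h1 := norm_taylor_two_le (c := x) (r := 1 / 2) (M := 1) (z := y)
      hg.differentiableOn (fun z hz => by
        have h1 : ‖z‖ < 1 := by
          have := norm_le_norm_add_norm_sub' z x
          rw [mem_ball_iff_norm] at hz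
          linarith
        exact (hb z h1).2.trans h1.le) (by rw [mem_ball_iff_norm]; linarith)
    have h2 := fderiv_lower hg hi hc hb hx (y - x)
    have h3 := norm_le_norm_add_norm_sub (g y - g x) (fderiv ℂ g x (y - x))
    have h4 := mul_le_mul_of_nonneg_right hy (norm_nonneg (y - x))
    nlinarith
  have hin : ‖g.symm w - x‖ ≤ mu c / 32 := by
    by_contra hcon
    push Not at hcon
    have hcont : Continuous fun s : ℝ => ‖g.symm (g x + (s : ℂ) • (w - g x)) - x‖ :=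
      ((hi.continuous.comp (by fun_prop)).sub continuous_const).norm
    have := intermediate_value_Icc (zero_le_one' ℝ) hcont.continuousOn
      (show mu c / 32 ∈ Icc _ _ from ⟨by simpa using by positivity, by simpa using hcon.le⟩)
    obtain ⟨s, hs, hs2⟩ := this
    have h1 := hexp _ hs2.le
    simp only at hs2
    rw [hs2, g.apply_symm_apply, add_sub_cancel_left, norm_smul, Complex.norm_real,
      Real.norm_of_nonneg hs.1] at h1
    have := mul_le_mul_of_nonneg_right hs.2 (norm_nonneg (w - g x))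
    nlinarith
  have h1 := hexp _ hin
  rw [g.apply_symm_apply] at h1
  rw [div_mul_eq_mul_div, le_div_iff₀ hmu]
  linarith

/-- Taylor truncation: error on the half ball and growth outside. -/
theorem taylor {F : E → E} (hF : Differentiable ℂ F) {R M : ℝ} (hR : 0 < R)
    (hM : ∀ y, ‖y‖ ≤ R → ‖F y‖ ≤ M) (k : ℕ) :
    ∃ P : E → E, Differentiable ℂ P ∧ (∀ z, ‖z‖ ≤ R / 2 → ‖F z - P z‖ ≤ 2 * M / 2 ^ k) ∧
      ∀ t : ℝ, 1 ≤ t → ∀ z, ‖z‖ ≤ t * R → ‖P z‖ ≤ M * k * t ^ k := by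
  have hM0 : 0 ≤ M := (norm_nonneg _).trans (hM 0 (by simpa using hR.le))
  let T : ℕ → E → E := fun j z => ((j.factorial : ℂ))⁻¹ • iteratedFDeriv ℂ j F 0 fun _ => z
  have hTd : ∀ j, Differentiable ℂ (T j) := fun j => by
    have h1 : Differentiable ℂ fun z : E => iteratedFDeriv ℂ j F 0 fun _ => z :=
      (((iteratedFDeriv ℂ j F 0).contDiff (n := 1)).differentiable one_ne_zero).comp
        (differentiable_pi.2 fun _ => differentiable_id)
    exact h1.const_smul ((j.factorial : ℂ))⁻¹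
  have hline : ∀ (z : E), Differentiable ℂ fun ζ : ℂ => F (ζ • z) := fun z =>
    hF.comp (differentiable_id.smul_const z)
  have hTe : ∀ j z, T j z = ((j.factorial : ℂ))⁻¹ • iteratedDeriv j (fun ζ : ℂ => F (ζ • z)) 0 :=
    fun j z => by rw [iteratedDeriv_line isOpen_univ hF.differentiableOn (mem_univ _)]
  have hTb : ∀ (j : ℕ) (s : ℝ), 0 < s → ∀ z, ‖z‖ ≤ s * R → ‖T j z‖ ≤ M * s ^ j := by
    intro j s hs z hz
    have h1 := Complex.norm_iteratedDeriv_le_of_forall_mem_sphere_norm_le (c := 0) (R := s⁻¹)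
      (C := M) j (inv_pos.2 hs) (hline z).diffContOnCl (fun ζ hζ => hM _ (by
        rw [mem_sphere_zero_iff_norm] at hζ
        rw [norm_smul, hζ, inv_mul_le_iff₀ hs]
        exact hz))
    rw [hTe, norm_smul, norm_inv, Complex.norm_natCast,
      inv_mul_le_iff₀ (by exact_mod_cast j.factorial_pos)]
    refine h1.trans (le_of_eq ?_)
    rw [inv_pow, div_inv_eq_mul, mul_assoc]
  have hsum : ∀ z, HasSum (fun j => T j z) (F z) := by
    intro z
    have := Complex.hasSum_taylorSeries_of_entire (hline z) 0 1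
    simp only [sub_zero, one_pow, one_smul] at this
    simpa only [hTe] using this
  refine ⟨fun z => ∑ j ∈ Finset.range k, T j z, by fun_prop, fun z hz => ?_, fun t ht z hz => ?_⟩
  · have h1 := (hasSum_nat_add_iff' k).2 (hsum z)
    have h2 : HasSum (fun j : ℕ => M / 2 ^ k * (1 / 2 : ℝ) ^ j) (M / 2 ^ k * 2) :=
      hasSum_geometric_two.mul_left _
    have h3 := h1.norm_le_of_bounded h2 (fun j => by
      refine (hTb (j + k) (1 / 2) (by norm_num) z (by linarith)).trans (le_of_eq ?_)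
      rw [pow_add]; field_simp
      rw [mul_assoc, ← mul_pow]; norm_num)
    refine h3.trans (le_of_eq ?_)
    ring
  · refine (norm_sum_le_of_le (n := fun _ => M * t ^ k) _ (fun j hj => ?_)).trans (le_of_eq ?_)
    · refine (hTb j t (by linarith) z hz).trans ?_
      have := Finset.mem_range.1 hj
      gcongr
    · simp; ring

/-- Uniform continuity near a ball. -/
theorem unif {g : E → E} (hg : Continuous g) (r : ℝ) {ε : ℝ} (hε : 0 < ε) :
    ∃ δ > 0, ∀ x y, ‖x‖ ≤ r → ‖y - x‖ ≤ δ → ‖g y - g x‖ ≤ ε := by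
  have h := (isCompact_closedBall (0 : E) (r + 1)).uniformContinuousOn_of_continuous
    hg.continuousOn
  obtain ⟨δ, hδ, h1⟩ := Metric.uniformContinuousOn_iff_le.1 h ε hε
  refine ⟨min δ 1, by positivity, fun x y hx hy => ?_⟩
  rw [← dist_eq_norm]
  refine h1 y ?_ x ?_ ?_
  · rw [mem_closedBall_zero_iff]
    have := norm_le_norm_add_norm_sub' y x
    have := min_le_right δ 1
    linarith
  · rw [mem_closedBall_zero_iff]; linarith
  · rw [dist_eq_norm]; exact hy.trans (min_le_left _ _)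

end Pool.Agent.MP_f7b0aa_an
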