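import Pool.Agent.MP_f7b0aa_an.Ana
import Pool.Agent.Lib.SCV.Inverse

attribute [-instance] ProperSMul.toContinuousSMul TotallySeparatedSpace.t2Space
  IdemSemiring.toCanonicallyOrderedAdd NonarchimedeanAddGroup.toIsTopologicalAddGroup
  IsModuleTopology.toContinuousSMul NumberField.to_charZero RKHS.instFunLike
  IsSemitopologicalSemiring.toContinuousAdd AddQuantale.instAddLeftMono CommRing.toRing
  IsTopologicalTorsor.toContinuousSMul FiniteDimensional.rclike_to_real DivisionRing.toRing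
  covariant_swap_mul_of_covariant_mul NonUnitalNonAssocSemiring.toMulZeroClass
  NonUnitalNonAssocSemiring.toAddCommMonoid IsOrderedMonoid.toMulLeftMono
  NonUnitalNonAssocSemiring.toDistrib Semiring.toAddCommMonoid IsTopologicalSemiring.toContinuousAdd
  AddCommGroupWithOne.toAddGroupWithOne Quantale.instMulLeftMono IdemSemiring.toMulLeftMono
  LinearOrderedCommMonoidWithZero.toPosMulStrictMono MulZeroOneClass.toMulZeroClass
  CoalgHomClass.toSemilinearMapClass IsValuativeTopology.instIsTopologicalAddGroup littleWedderburn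
  SemilinearIsometryClass.toSemilinearMapClass Valued.toUniformSpace

/-! The two iterations: an entire map into the basin close to the identity, and the
Mittag-Leffler iteration which makes it surjective. -/

open Filter Topology Set Function Metric

namespace Pool.Agent.MP_f7b0aa_an

open Pool.Agent.Lib.SCV

/-- Approximation property: error `θ M` on the half ball, bound `M / d` on the `t`-fold ball. -/
def AP (θ t d : ℝ) : Prop :=
  ∀ F : E → E, Differentiable ℂ F → ∀ R M : ℝ, 0 < R → (∀ y, ‖y‖ ≤ R → ‖F y‖ ≤ M) →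
    ∃ P : E → E, Differentiable ℂ P ∧ (∀ z, ‖z‖ ≤ R / 2 → ‖P z - F z‖ ≤ θ * M) ∧
      ∀ z, ‖z‖ ≤ t * R → d * ‖P z‖ ≤ M

theorem AP.trivial {θ d : ℝ} (hθ : 0 ≤ θ) (hd1 : d ≤ 1) : AP θ 1 d := by
  intro F hF R M hR hM
  have hM0 : 0 ≤ M := (norm_nonneg _).trans (hM 0 (by simpa only [norm_zero] using hR.le))
  refine ⟨F, hF, fun z _ => by simpa only [sub_self, norm_zero] using by positivity, fun z hz => ?_⟩
  have := hM z (by linarith)
  nlinarith only [norm_nonneg (F z), hd1, this]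

theorem AP.of_taylor {θ t d : ℝ} {k : ℕ} (hθ : 2 / 2 ^ k ≤ θ) (ht : 1 ≤ t) (hd : 0 ≤ d)
    (h : d * (k * t ^ k) ≤ 1) : AP θ t d := by
  intro F hF R M hR hM
  have hM0 : 0 ≤ M := (norm_nonneg _).trans (hM 0 (by simpa only [norm_zero] using hR.le))
  obtain ⟨P, hP, h1, h2⟩ := taylor hF hR hM k
  refine ⟨P, hP, fun z hz => ?_, fun z hz => ?_⟩
  · rw [norm_sub_rev]
    refine (h1 z hz).trans ?_
    calc 2 * M / 2 ^ k = 2 / 2 ^ k * M := by ring
      _ ≤ _ := by gcongr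
  · calc d * ‖P z‖ ≤ d * (M * k * t ^ k) := by gcongr; exact h2 t ht z hz
      _ = d * (k * t ^ k) * M := by ring
      _ ≤ 1 * M := by gcongr
      _ = M := one_mul _

theorem geo_limit {u : ℕ → E} {ε : ℝ} (i : ℕ)
    (h : ∀ j, i ≤ j → ‖u (j + 1) - u j‖ ≤ ε / 2 ^ (j + 1)) :
    ∃ a, Tendsto u atTop (𝓝 a) ∧ ∀ j, i ≤ j → ‖a - u j‖ ≤ ε / 2 ^ j := by
  have h1 : ∀ j, i ≤ j → ∀ n, dist (u (n + j)) (u (n + 1 + j)) ≤ ε / 2 ^ j / 2 / 2 ^ n := by
    intro j hj n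
    rw [dist_comm, dist_eq_norm, show n + 1 + j = n + j + 1 by ring]
    refine (h _ (by omega)).trans (le_of_eq ?_)
    rw [pow_succ, pow_add]; field_simp
  obtain ⟨a, ha⟩ := cauchySeq_tendsto_of_complete
    (cauchySeq_of_le_geometric_two (f := fun n => u (n + i)) (h1 i le_rfl))
  have ha' : Tendsto u atTop (𝓝 a) := (tendsto_add_atTop_iff_nat i).1 ha
  refine ⟨a, ha', fun j hj => ?_⟩
  have := dist_le_of_le_geometric_two_of_tendsto₀ (f := fun n => u (n + j)) (h1 j hj)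
    ((tendsto_add_atTop_iff_nat j).2 ha')
  rwa [zero_add, dist_comm, dist_eq_norm] at this

theorem diff_limit {g : ℕ → E → E} {G : E → E} (hd : ∀ n, Differentiable ℂ (g n)) {ε r : ℝ}
    (i : ℕ) (h : ∀ j, i ≤ j → ∀ z, ‖z‖ ≤ r → ‖G z - g j z‖ ≤ ε / 2 ^ j) {x : E} (hx : ‖x‖ + 2 ≤ r) :
    DifferentiableAt ℂ G x := by
  refine differentiableAt_of_unif_limit (g := fun n => g (n + i)) (δ := 1) one_pos
    (fun n => (hd _).differentiableOn) (ε := fun n => ε / 2 ^ (n + i)) ?_ (fun n y hy => ?_)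
  · refine (tendsto_add_atTop_iff_nat (f := fun n => ε / 2 ^ n) i).2 ?_
    exact tendsto_const_nhds.div_atTop (tendsto_pow_atTop_atTop_of_one_lt one_lt_two)
  · rw [norm_sub_rev]
    refine h _ (by omega) y ?_
    have := norm_le_norm_add_norm_sub' y x
    rw [mem_ball_iff_norm] at hy
    linarith

/-- Step C in abstract form. -/
theorem iterC (T : ℕ → E ≃ E) (hT : ∀ j, Differentiable ℂ (T j))
    (hTi : ∀ j, Differentiable ℂ (T j).symm) {c d θ R : ℕ → ℝ} {ε : ℝ} (hε : 0 < ε)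
    (hε1 : ε ≤ 1 / 8) (hc : ∀ j, 0 < c j) (hc1 : ∀ j, c j ≤ 1) (hd : ∀ j, 0 < d j)
    (hd1 : ∀ j, d j ≤ 1)
    (hb : ∀ i j, i ≤ j → ∀ z, ‖z‖ < 1 →
      c j * ‖z‖ ≤ ‖T j ((T i).symm z)‖ ∧ ‖T j ((T i).symm z)‖ ≤ ‖z‖)
    (hb2 : ∀ j z, ‖z‖ < 1 → ‖T (j + 1) ((T j).symm z)‖ ≤ d j * ‖z‖)
    (hR0 : R 0 = 1 / 8) (hRm : Monotone R) (hRt : Tendsto R atTop atTop)
    (hAP : ∀ j, AP (θ j) (R (j + 1) / R j) (d j)) (hθ0 : ∀ j, 0 ≤ θ j)
    (hθ1 : ∀ j, θ j / 8 < mu (c (j + 1)) ^ 2 / 64)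
    (hθ2 : ∀ j, 2 / mu (c (j + 1)) * (θ j / 8) ≤ ε / 2 ^ (j + 1)) :
    ∃ G : E → E, Differentiable ℂ G ∧ (∀ z, ∃ i, ‖T i (G z)‖ < 1) ∧
      ∀ z, ‖z‖ ≤ 1 / 16 → ‖T 0 (G z) - z‖ ≤ ε := by
  have hRp : ∀ j, 0 < R j := fun j => lt_of_lt_of_le (by rw [hR0]; norm_num) (hRm (Nat.zero_le j))
  have step : ∀ (j : ℕ) (H : {H : E → E // Differentiable ℂ H ∧ ∀ z, ‖z‖ ≤ R j → ‖H z‖ ≤ 1 / 8}),
      ∃ H' : {H : E → E // Differentiable ℂ H ∧ ∀ z, ‖z‖ ≤ R (j + 1) → ‖H z‖ ≤ 1 / 8},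
        ∀ z, ‖z‖ ≤ R j / 2 → ‖H'.1 z - T (j + 1) ((T j).symm (H.1 z))‖ ≤ θ j / 8 := by
    rintro j ⟨H, hH, hH2⟩
    obtain ⟨P, hP, h1, h2⟩ := hAP j (fun z => T (j + 1) ((T j).symm (H z)))
      ((hT _).comp ((hTi _).comp hH)) (R j) (d j * (1 / 8)) (hRp j) (fun y hy => by
        have := hH2 y hy
        refine (hb2 j _ (by linarith only [this])).trans ?_
        have := hd j
        gcongr)
    refine ⟨⟨P, hP, fun z hz => ?_⟩, fun z hz => (h1 z hz).trans ?_⟩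
    · refine le_of_mul_le_mul_left (h2 z ?_) (hd j)
      rwa [div_mul_cancel₀ _ (hRp j).ne']
    · have := mul_le_mul_of_nonneg_left (hd1 j) (hθ0 j)
      linarith only [this]
  choose nx hnx using step
  let H : ∀ j : ℕ, {H : E → E // Differentiable ℂ H ∧ ∀ z, ‖z‖ ≤ R j → ‖H z‖ ≤ 1 / 8} :=
    fun j => Nat.rec ⟨id, differentiable_id, fun z hz => by rwa [hR0] at hz⟩ nx j
  have hH0 : (H 0).1 = id := rfl
  have hHs : ∀ j z, ‖z‖ ≤ R j / 2 →
      ‖(H (j + 1)).1 z - T (j + 1) ((T j).symm ((H j).1 z))‖ ≤ θ j / 8 := fun j => hnx j (H j)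
  let G : ℕ → E → E := fun j z => (T j).symm ((H j).1 z)
  have hGd : ∀ j, Differentiable ℂ (G j) := fun j => (hTi j).comp (H j).2.1
  have one : ∀ i j, i ≤ j → ∀ z, ‖z‖ ≤ R i / 2 → ‖T i (G j z)‖ ≤ 1 / 4 →
      ‖T i (G (j + 1) z) - T i (G j z)‖ ≤ ε / 2 ^ (j + 1) := by
    intro i j hij z hz hx
    have h1 := hHs j z (hz.trans (by have := hRm hij; linarith only [this]))
    have h2 := inv_lip (g := (T i).symm.trans (T (j + 1))) ((hT _).comp (hTi _))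
      ((hT _).comp (hTi _)) (hc (j + 1)) (hc1 _) (hb i (j + 1) (by omega)) hx
      (w := (H (j + 1)).1 z) (by
        simp only [Equiv.trans_apply, Equiv.symm_apply_apply]
        exact h1.trans_lt (hθ1 j))
    simp only [Equiv.trans_apply, Equiv.symm_apply_apply, Equiv.symm_trans_apply,
      Equiv.symm_symm] at h2
    refine h2.trans (le_trans ?_ (hθ2 j))
    have : 0 < mu (c (j + 1)) := by have := hc (j + 1); unfold mu; positivity
    gcongr
  have inv : ∀ i z, ‖z‖ ≤ R i / 2 → ∀ j, i ≤ j → ‖T i (G j z)‖ ≤ 1 / 8 + ε - ε / 2 ^ j := by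
    intro i z hz j hij
    induction j, hij using Nat.le_induction with
    | base =>
      have h1 := (H i).2.2 z (by have := hRp i; linarith only [hz, this])
      have h2 : ε / 2 ^ i ≤ ε := div_le_self hε.le (one_le_pow₀ one_le_two)
      simp only [G, Equiv.apply_symm_apply]
      linarith only [h1, h2]
    | succ j hij ih =>
      have h0 : 0 ≤ ε / 2 ^ j := by positivity
      have h1 := one i j hij z hz (by linarith only [hε1, ih, h0])
      have h2 := norm_le_norm_add_norm_sub' (T i (G (j + 1) z)) (T i (G j z))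
      have h3 : ε / 2 ^ j = ε / 2 ^ (j + 1) + ε / 2 ^ (j + 1) := by rw [pow_succ]; field_simp; ring
      linarith only [ih, h1, h2, h3]
  have lim : ∀ i z, ‖z‖ ≤ R i / 2 → ∃ a, Tendsto (fun j => T i (G j z)) atTop (𝓝 a) ∧
      ∀ j, i ≤ j → ‖a - T i (G j z)‖ ≤ ε / 2 ^ j := fun i z hz =>
    geo_limit i fun j hj => one i j hj z hz (by
      have := inv i z hz j hj
      have h0 : 0 ≤ ε / 2 ^ j := by positivity
      linarith only [hε1, this, h0])
  have big : ∀ r : ℝ, ∃ i, r ≤ R i / 2 := fun r => by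
    obtain ⟨i, hi⟩ := (hRt.eventually_ge_atTop (2 * r)).exists
    exact ⟨i, by linarith only [hi]⟩
  have conv : ∀ z, ∃ b, Tendsto (fun j => G j z) atTop (𝓝 b) := by
    intro z
    obtain ⟨i, hi⟩ := big ‖z‖
    obtain ⟨a, ha, -⟩ := lim i z hi
    have := ((hTi i).continuous.tendsto a).comp ha
    exact ⟨_, this.congr fun j => by simp⟩
  choose Ψ hΨ using conv
  have est : ∀ i j, i ≤ j → ∀ z, ‖z‖ ≤ R i / 2 → ‖T i (Ψ z) - T i (G j z)‖ ≤ ε / 2 ^ j := by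
    intro i j hij z hz
    obtain ⟨a, ha, h2⟩ := lim i z hz
    rw [tendsto_nhds_unique (((hT i).continuous.tendsto _).comp (hΨ z)) ha]
    exact h2 j hij
  refine ⟨Ψ, fun x => ?_, fun z => ?_, fun z hz => ?_⟩
  · obtain ⟨i, hi⟩ := big (‖x‖ + 2)
    have h1 : DifferentiableAt ℂ (fun z => T i (Ψ z)) x :=
      diff_limit (g := fun j z => T i (G j z)) (fun n => (hT i).comp (hGd n)) i (est i) hi
    have h2 := (hTi i (T i (Ψ x))).comp x h1
    simpa [comp_def] using h2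
  · obtain ⟨i, hi⟩ := big ‖z‖
    have h1 := est i i le_rfl z hi
    have h2 := inv i z hi i le_rfl
    have h3 := norm_le_norm_add_norm_sub' (T i (Ψ z)) (T i (G i z))
    exact ⟨i, by linarith only [hε1, h1, h2, h3]⟩
  · have h1 := est 0 0 le_rfl z (by rw [hR0]; linarith only [hz])
    simpa only [ge_iff_le, G, hH0, id_eq, Equiv.apply_symm_apply, pow_zero, div_one] using h1

theorem exists_bound {F : E → E} (hF : Continuous F) (r : ℝ) :
    ∃ M, ∀ y, ‖y‖ ≤ r → ‖F y‖ ≤ M := by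
  obtain ⟨M, hM⟩ := (isCompact_closedBall (0 : E) r).exists_bound_of_continuousOn hF.continuousOn
  exact ⟨M, fun y hy => hM y (by simpa using hy)⟩

theorem tendsto_poly_exp (k : ℕ) (a : ℝ) :
    Tendsto (fun b : ℝ => a * ((b + 1) ^ k * Real.exp (-b))) atTop (𝓝 0) := by
  have h := ((Real.tendsto_pow_mul_exp_neg_atTop_nhds_zero k).comp
    (tendsto_atTop_add_const_right atTop 1 tendsto_id)).const_mul (a * Real.exp 1)
  rw [mul_zero] at h
  refine h.congr fun b => ?_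
  have : Real.exp (-b) = Real.exp 1 * Real.exp (-(b + 1)) := by
    rw [← Real.exp_add]; congr 1; ring
  simp only [comp_apply, id_eq]
  rw [this]; ring

/-- An entire map close to `F` on a ball and close to a translation on a far small ball. -/
theorem glue {F : E → E} (hF : Differentiable ℂ F) {ρ ε : ℝ} (hρ : 1 ≤ ρ) (hε : 0 < ε) :
    ∃ (Q : E → E) (c : E), Differentiable ℂ Q ∧ (∀ z, ‖z‖ ≤ ρ → ‖Q z - F z‖ ≤ ε) ∧
      ∀ z, ‖z‖ ≤ 1 / 32 → ‖Q (c + z) - z‖ ≤ ε := by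
  obtain ⟨M, hM⟩ := exists_bound hF.continuous (2 * ρ)
  have hM0 : 0 ≤ M := (norm_nonneg _).trans (hM 0 (by simp only [norm_zero, Nat.ofNat_pos, mul_nonneg_iff_of_pos_left]; linarith))
  obtain ⟨k, hk⟩ := ((tendsto_const_nhds (x := 2 * M)).div_atTop
    (tendsto_pow_atTop_atTop_of_one_lt (one_lt_two (α := ℝ)))).eventually
    (gt_mem_nhds (half_pos hε)) |>.exists
  obtain ⟨P, hP, h1, h2⟩ := taylor hF (by linarith only [hρ]) hM k
  obtain ⟨b, hb0, hb1, hb2, hb3⟩ : ∃ b : ℝ, 0 ≤ b ∧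
      2 * Real.exp ρ * ((b + 1) ^ 2 * Real.exp (-b)) < 1 ∧
      4 * Real.exp ρ * (ρ + M * k + 1) * ((b + 1) ^ 2 * Real.exp (-b)) < ε / 2 ∧
      (M * k + 1) * ((b + 1) ^ k * Real.exp (-b)) < ε :=
    ((eventually_ge_atTop 0).and (((tendsto_poly_exp 2 _).eventually (gt_mem_nhds one_pos)).and
      (((tendsto_poly_exp 2 _).eventually (gt_mem_nhds (half_pos hε))).and
        ((tendsto_poly_exp k _).eventually (gt_mem_nhds hε))))).exists
  let χ : E → ℂ := fun z => Complex.exp (-(2 * b * Complex.exp (z 0 - b)))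
  have hχ : Differentiable ℂ χ :=
    (((diff_co 0).sub_const _).cexp.const_mul _).neg.cexp
  have hcn : ‖pt b 0‖ = b := by rw [norm_pt_left, Complex.norm_real, Real.norm_of_nonneg hb0]
  refine ⟨fun z => χ z • P z + (1 - χ z) • (z - pt b 0), pt b 0,
    (hχ.smul hP).add ((hχ.const_sub 1).smul (differentiable_id.sub_const _)),
    fun z hz => ?_, fun z hz => ?_⟩
  · have e : χ z • P z + (1 - χ z) • (z - pt b 0) - F z =
        (χ z - 1) • (P z - (z - pt b 0)) - (F z - P z) := by module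
    have a1 : ‖-(2 * b * Complex.exp (z 0 - b))‖ ≤ 2 * b * (Real.exp ρ * Real.exp (-b)) := by
      rw [norm_neg, norm_mul, norm_mul, Complex.norm_exp, ← Real.exp_add, Complex.norm_real,
        Real.norm_of_nonneg hb0, Complex.norm_ofNat]
      have := (Complex.re_le_norm (z 0)).trans ((co_le z 0).trans hz)
      gcongr
      simp only [Complex.sub_re, Complex.ofReal_re]
      linarith only [this]
    have hx : 0 < Real.exp ρ * Real.exp (-b) := by positivity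
    have a2 : ‖χ z - 1‖ ≤ 2 * (2 * b * (Real.exp ρ * Real.exp (-b))) := by
      refine (Complex.norm_exp_sub_one_le (a1.trans ?_)).trans (by linarith only [a1])
      linarith only [mul_nonneg hx.le (sq_nonneg b), hb1, hx]
    have a3 : ‖P z - (z - pt b 0)‖ ≤ M * k + ρ + b := by
      have b1 := h2 1 le_rfl z (by linarith only [hρ, hz])
      have b2 := norm_sub_le (P z) (z - pt b 0)
      have b3 := norm_sub_le z (pt b 0)
      rw [one_pow] at b1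
      linarith only [hcn, hz, b1, b2, b3]
    have a4 := h1 z (by linarith only [hz])
    have hMk : 0 ≤ M * k := by positivity
    have a5 : b * (M * k + ρ + b) ≤ (ρ + M * k + 1) * (b + 1) ^ 2 := by
      have : 0 ≤ ρ + M * k := by linarith only [hρ, hMk]
      linarith only [mul_nonneg this hb0, mul_nonneg this (sq_nonneg b), hρ, hb0, hMk]
    have a6 := mul_le_mul a2 a3 (norm_nonneg _) (by positivity)
    have a7 := mul_le_mul_of_nonneg_left a5 hx.le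
    beta_reduce
    rw [e]
    refine (norm_sub_le _ _).trans ?_
    rw [norm_smul]
    linarith only [hk, hb2, a4, a6, a7]
  · have e : χ (pt b 0 + z) • P (pt b 0 + z) + (1 - χ (pt b 0 + z)) • (pt b 0 + z - pt b 0) - z =
        χ (pt b 0 + z) • (P (pt b 0 + z) - z) := by module
    have a1 : ‖χ (pt b 0 + z)‖ ≤ Real.exp (-b) := by
      have c0 := (co_le z 0).trans hz
      have c1 := Complex.norm_exp_sub_one_le (x := z 0) (by linarith only [c0])
      have c2 := (abs_le.1 (Complex.abs_re_le_norm (Complex.exp (z 0) - 1))).1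
      rw [Complex.sub_re, Complex.one_re] at c2
      simp only [χ, PiLp.add_apply, pt_zero, add_sub_cancel_left, Complex.norm_exp]
      rw [Real.exp_le_exp, Complex.neg_re, neg_le_neg_iff,
        show (2 * b : ℂ) = ((2 * b : ℝ) : ℂ) by push_cast; rfl, Complex.re_ofReal_mul]
      nlinarith only [hb0, c0, c1, c2]
    have a3 : ‖P (pt b 0 + z) - z‖ ≤ (M * k + 1) * (b + 1) ^ k := by
      have b0 := norm_add_le (pt b 0) z
      have b1 := h2 (b + 1) (by linarith only [hb0]) (pt b 0 + z) (by nlinarith only [hρ, hb0, hcn, hz, b0])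
      have b2 := norm_sub_le (P (pt b 0 + z)) z
      have b3 : (1 : ℝ) ≤ (b + 1) ^ k := one_le_pow₀ (by linarith only [hb0])
      linarith only [hz, b1, b2, b3]
    beta_reduce
    rw [e, norm_smul]
    have := mul_le_mul a1 a3 (norm_nonneg _) (by positivity)
    linarith only [hb3, this]

/-- A map close to the identity covers a smaller ball. -/
theorem cover {A : E → E} (hA : Differentiable ℂ A) (h : ∀ z, ‖z‖ ≤ 1 / 32 → ‖A z - z‖ ≤ 1 / 256)
    {w : E} (hw : ‖w‖ ≤ 1 / 128) : ∃ z, ‖z‖ ≤ 1 / 32 ∧ A z = w ∧ Injective (fderiv ℂ A z) := by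
  have hd : Differentiable ℂ fun z => A z - z := hA.sub differentiable_id
  have hD : ∀ y ∈ closedBall (0 : E) (1 / 64), ‖fderiv ℂ (fun z => A z - z) y‖ ≤ 1 / 2 := by
    intro y hy
    rw [mem_closedBall_zero_iff] at hy
    have := norm_fderiv_le_of_bound (c := y) (r := 1 / 64) (M := 1 / 256) (by norm_num)
      hd.differentiableOn (fun z hz => h z (by
        have := norm_le_norm_add_norm_sub' z y
        rw [mem_ball_iff_norm] at hz
        linarith only [hy, hz, this]))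
    linarith only [this]
  obtain ⟨z, hz, hmin⟩ := (isCompact_closedBall (0 : E) (1 / 64)).exists_isMinOn
    ⟨0, by simp only [one_div, mem_closedBall, dist_self, inv_nonneg, Nat.ofNat_nonneg]⟩ (f := fun z => ‖A z - w‖) (hA.continuous.sub continuous_const).norm.continuousOn
  have hz' := mem_closedBall_zero_iff.1 hz
  have hmem : w - (A z - z) ∈ closedBall (0 : E) (1 / 64) := by
    rw [mem_closedBall_zero_iff]
    have := norm_sub_le w (A z - z)
    have := h z (by linarith only [hz'])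
    linarith
  have h1 := (convex_closedBall (0 : E) (1 / 64)).norm_image_sub_le_of_norm_fderiv_le
    (fun x _ => hd x) hD hz hmem
  have h2 : ‖A z - w‖ ≤ ‖A (w - (A z - z)) - w‖ := hmin hmem
  have e1 : A (w - (A z - z)) - (w - (A z - z)) - (A z - z) = A (w - (A z - z)) - w := by abel
  have e2 : w - (A z - z) - z = -(A z - w) := by abel
  rw [e1, e2, norm_neg] at h1
  refine ⟨z, by linarith only [hz'], sub_eq_zero.1 (norm_le_zero_iff.1 (by linarith only [h1, h2])), ?_⟩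
  refine (injective_iff_map_eq_zero _).2 fun v hv => ?_
  have h3 := ((fderiv ℂ (fun z => A z - z) z).le_opNorm v).trans
    (mul_le_mul_of_nonneg_right (hD z hz) (norm_nonneg v))
  have h4 : fderiv ℂ (fun z => A z - z) z = fderiv ℂ A z - ContinuousLinearMap.id ℂ E :=
    ((hA z).hasFDerivAt.sub (hasFDerivAt_id z)).fderiv
  rw [h4, sub_apply, hv, zero_sub, norm_neg,
    ContinuousLinearMap.id_apply] at h3
  exact norm_le_zero_iff.1 (by linarith only [h3])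

/-- The data used by step D. -/
structure Exh (T : ℕ → E ≃ E) (Ω : Set E) : Prop where
  d : ∀ j, Differentiable ℂ (T j)
  di : ∀ j, Differentiable ℂ (T j).symm
  mem : ∀ z, z ∈ Ω ↔ ∃ n, ‖T n z‖ < 1
  decay : ∀ n, ∀ η > 0, ∀ᶠ m in atTop, ∀ z, ‖T n z‖ < 1 → ‖T m z‖ ≤ η

theorem Exh.compact {T : ℕ → E ≃ E} {Ω K : Set E} (h : Exh T Ω) (hK : IsCompact K) (hs : K ⊆ Ω)
    {η : ℝ} (hη : 0 < η) : ∀ᶠ m in atTop, ∀ z ∈ K, ‖T m z‖ ≤ η := by
  obtain ⟨s, hs⟩ := hK.elim_finite_subcover (fun n => {z | ‖T n z‖ < 1})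
    (fun n => isOpen_lt (h.d n).continuous.norm continuous_const)
    (fun z hz => mem_iUnion.2 ((h.mem z).1 (hs hz)))
  filter_upwards [(eventually_all_finset s).2 fun n _ => h.decay n η hη] with m hm z hz
  obtain ⟨n, hn, hz⟩ := mem_iUnion₂.1 (hs hz)
  exact hm n hn z hz

/-- Robust property of a stage. -/
def Rob (T : ℕ → E ≃ E) (Ω : Set E) (Φ : E → E) (ρ' δ ρ : ℝ) (n : ℕ) : Prop :=
  ∀ Θ : E → E, Differentiable ℂ Θ → (∀ z, ‖z‖ ≤ ρ' → ‖Θ z - Φ z‖ ≤ δ) →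
    (∀ z, ‖z‖ ≤ ρ → Θ z ∈ Ω) ∧ ∀ p, ‖T n p‖ < 1 → ∃ z, Θ z = p ∧ Injective (fderiv ℂ Θ z)

theorem Exh.ext {T : ℕ → E ≃ E} {Ω : Set E} (h : Exh T Ω)
    (hC : ∃ᶠ m in atTop, ∀ ε > 0, ∃ G : E → E, Differentiable ℂ G ∧ (∀ z, G z ∈ Ω) ∧
      ∀ z, ‖z‖ ≤ 1 / 16 → ‖T m (G z) - z‖ ≤ ε)
    {Φ : E → E} (hΦ : Differentiable ℂ Φ) (hΩ : ∀ z, Φ z ∈ Ω) {ρ τ : ℝ} (hρ : 1 ≤ ρ) (hτ : 0 < τ)
    (n : ℕ) : ∃ (Φ' : E → E) (ρ' δ : ℝ), Differentiable ℂ Φ' ∧ (∀ z, Φ' z ∈ Ω) ∧ ρ + 1 ≤ ρ' ∧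
      0 < δ ∧ δ ≤ τ ∧ (∀ z, ‖z‖ ≤ ρ → ‖Φ' z - Φ z‖ ≤ τ) ∧ Rob T Ω Φ' ρ' δ ρ n := by
  have e1 := h.compact ((isCompact_closedBall (0 : E) ρ).image hΦ.continuous)
    (by rintro _ ⟨z, -, rfl⟩; exact hΩ z) (η := 1 / 128) (by norm_num)
  obtain ⟨m, hG, m1, m2⟩ := (hC.and_eventually (e1.and (h.decay n (1 / 128) (by norm_num)))).exists
  obtain ⟨δ₁, hδ₁, u1⟩ := unif (h.di m).continuous 1 hτ
  obtain ⟨ε, hε, hε1, hε2⟩ : ∃ ε : ℝ, 0 < ε ∧ ε ≤ δ₁ / 2 ∧ ε ≤ 1 / 1024 :=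
    ⟨min (δ₁ / 2) (1 / 1024), by positivity, min_le_left _ _, min_le_right _ _⟩
  obtain ⟨G, hGd, hGΩ, hG1⟩ := hG ε hε
  obtain ⟨Q, c, hQ, q1, q2⟩ := glue ((h.d m).comp hΦ) hρ hε
  obtain ⟨r, hr⟩ := exists_bound (hGd.comp hQ).continuous (ρ + 1 + ‖c‖)
  obtain ⟨δ, hδ, u2⟩ := unif (h.d m).continuous r (ε := 1 / 512) (by norm_num)
  have near : ∀ z, ‖z‖ ≤ ρ → ‖T m (Φ z)‖ ≤ 1 / 128 ∧ ‖T m (G (Q z)) - T m (Φ z)‖ ≤ 2 * ε := by
    intro z hz
    have a1 := m1 (Φ z) ⟨z, by simpa using hz, rfl⟩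
    have a2 : ‖Q z - T m (Φ z)‖ ≤ ε := q1 z hz
    have a3 := norm_le_norm_add_norm_sub' (Q z) (T m (Φ z))
    have a4 := hG1 (Q z) (by linarith only [hε2, a1, a2, a3])
    have a5 := norm_sub_le_norm_sub_add_norm_sub (T m (G (Q z))) (Q z) (T m (Φ z))
    exact ⟨a1, by linarith only [a2, a4, a5]⟩
  refine ⟨G ∘ Q, ρ + 1 + ‖c‖, min δ τ, hGd.comp hQ, fun z => hGΩ _, by simp, by positivity,
    min_le_right _ _, fun z hz => ?_, fun Θ hΘ hcl => ?_⟩
  · obtain ⟨a1, a2⟩ := near z hz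
    simpa only [comp_apply, Equiv.symm_apply_apply] using u1 (T m (Φ z)) (T m (G (Q z))) (by linarith only [hε, hε2, a1]) (by linarith only [hε1, a2])
  have cl : ∀ z, ‖z‖ ≤ ρ + 1 + ‖c‖ → ‖T m (Θ z) - T m (G (Q z))‖ ≤ 1 / 512 := fun z hz =>
    u2 _ _ (hr z hz) ((hcl z hz).trans (min_le_left _ _))
  refine ⟨fun z hz => (h.mem _).2 ⟨m, ?_⟩, fun p hp => ?_⟩
  · obtain ⟨a1, a2⟩ := near z hz
    have a3 := cl z (by have := norm_nonneg c; linarith only [hε, hε2, hz, this])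
    have a4 := norm_le_norm_add_norm_sub' (T m (Θ z)) (T m (G (Q z)))
    have a5 := norm_le_norm_add_norm_sub' (T m (G (Q z))) (T m (Φ z))
    linarith
  have hsh : Differentiable ℂ fun z => c + z := differentiable_id.const_add c
  obtain ⟨z, -, hz1, hz2⟩ := cover (A := fun z => T m (Θ (c + z))) ((h.d m).comp (hΘ.comp hsh))
    (fun z hz => by
      have a1 := q2 z hz
      have a2 := norm_le_norm_add_norm_sub' (Q (c + z)) z
      have a3 := hG1 (Q (c + z)) (by linarith)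
      have a4 := cl (c + z) (by have := norm_add_le c z; linarith only [hρ, hz, this])
      have a5 := norm_sub_le_norm_sub_add_norm_sub (T m (Θ (c + z))) (T m (G (Q (c + z)))) z
      have a6 := norm_sub_le_norm_sub_add_norm_sub (T m (G (Q (c + z)))) (Q (c + z)) z
      linarith only [hε2, a1, a3, a4, a5, a6]) (m2 p hp)
  refine ⟨c + z, (T m).injective hz1, ?_⟩
  have hf : fderiv ℂ (fun z => T m (Θ (c + z))) z =
      (fderiv ℂ (T m) (Θ (c + z))).comp ((fderiv ℂ Θ (c + z)).comp (ContinuousLinearMap.id ℂ E)) :=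
    ((h.d m _).hasFDerivAt.comp z ((hΘ _).hasFDerivAt.comp z
      ((hasFDerivAt_id z).const_add c))).fderiv
  rw [hf] at hz2
  intro v w hvw
  exact hz2 (by simp [hvw])

/-- Step D. -/
theorem Exh.surj {T : ℕ → E ≃ E} {Ω : Set E} (h : Exh T Ω) (h0 : (0 : E) ∈ Ω)
    (hC : ∃ᶠ m in atTop, ∀ ε > 0, ∃ G : E → E, Differentiable ℂ G ∧ (∀ z, G z ∈ Ω) ∧
      ∀ z, ‖z‖ ≤ 1 / 16 → ‖T m (G z) - z‖ ≤ ε) :
    ∃ Θ : E → E, Differentiable ℂ Θ ∧ (∀ z, Θ z ∈ Ω) ∧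
      ∀ p ∈ Ω, ∃ z, Θ z = p ∧ Injective (fderiv ℂ Θ z) := by
  obtain ⟨Φ, ρ, δ, hΦ, hρ, r1, r2, r3, r4⟩ : ∃ (Φ : ℕ → E → E) (ρ δ : ℕ → ℝ),
      (∀ j, Differentiable ℂ (Φ j)) ∧ 1 ≤ ρ 0 ∧ (∀ j, ρ j + 1 ≤ ρ (j + 1)) ∧
      (∀ j, δ (j + 1) ≤ δ j / 2) ∧ (∀ j z, ‖z‖ ≤ ρ j → ‖Φ (j + 1) z - Φ j z‖ ≤ δ j / 2) ∧
      ∀ j, Rob T Ω (Φ (j + 1)) (ρ (j + 1)) (δ (j + 1)) (ρ j) j := by
    let S := {x : (E → E) × ℝ × ℝ //
      Differentiable ℂ x.1 ∧ (∀ z, x.1 z ∈ Ω) ∧ 1 ≤ x.2.1 ∧ 0 < x.2.2}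
    have step : ∀ (n : ℕ) (x : S), ∃ y : S, x.1.2.1 + 1 ≤ y.1.2.1 ∧ y.1.2.2 ≤ x.1.2.2 / 2 ∧
        (∀ z, ‖z‖ ≤ x.1.2.1 → ‖y.1.1 z - x.1.1 z‖ ≤ x.1.2.2 / 2) ∧
        Rob T Ω y.1.1 y.1.2.1 y.1.2.2 x.1.2.1 n := by
      rintro n ⟨⟨Φ, ρ, δ⟩, h1, h2, h3, h4⟩
      obtain ⟨Φ', ρ', δ', a1, a2, a3, a4, a5, a6, a7⟩ := h.ext hC h1 h2 h3 (half_pos h4) n
      exact ⟨⟨⟨Φ', ρ', δ'⟩, a1, a2, by dsimp only at h3 a3 ⊢; linarith only [h3, a3], a4⟩, a3, a5, a6, a7⟩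
    choose nx n1 n2 n3 n4 using step
    let X : ℕ → S := fun j => Nat.rec ⟨⟨0, 1, 1⟩, differentiable_const 0, fun _ => h0, le_rfl,
      one_pos⟩ nx j
    exact ⟨fun j => (X j).1.1, fun j => (X j).1.2.1, fun j => (X j).1.2.2, fun j => (X j).2.1,
      le_rfl, fun j => n1 j (X j), fun j => n2 j (X j), fun j => n3 j (X j), fun j => n4 j (X j)⟩
  have hm : Monotone ρ := monotone_nat_of_le_succ fun j => by linarith [r1 j]
  have hge : ∀ j : ℕ, (j : ℝ) ≤ ρ j := fun j => by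
    induction j with
    | zero => simpa only [CharP.cast_eq_zero] using zero_le_one.trans hρ
    | succ j ih => push_cast; linarith [r1 j]
  have big : ∀ r : ℝ, ∃ i, r ≤ ρ i := fun r => (exists_nat_ge r).imp fun i hi => hi.trans (hge i)
  have hδ : ∀ i j, i ≤ j → δ j ≤ δ i * 2 ^ i / 2 ^ j := by
    intro i j hij
    induction j, hij using Nat.le_induction with
    | base => rw [mul_div_cancel_right₀ _ (by positivity)]
    | succ j hij ih => rw [pow_succ, ← div_div]; linarith only [r2 j, ih]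
  have lim : ∀ i z, ‖z‖ ≤ ρ i → ∃ a, Tendsto (fun j => Φ j z) atTop (𝓝 a) ∧
      ∀ j, i ≤ j → ‖a - Φ j z‖ ≤ δ i * 2 ^ i / 2 ^ j := fun i z hz =>
    geo_limit i fun j hj => (r3 j z (hz.trans (hm hj))).trans (by
      rw [pow_succ, ← div_div]; linarith [hδ i j hj])
  have conv : ∀ z, ∃ b, Tendsto (fun j => Φ j z) atTop (𝓝 b) := fun z => by
    obtain ⟨i, hi⟩ := big ‖z‖
    exact (lim i z hi).imp fun _ ha => ha.1
  choose Θ hΘ using conv
  have est : ∀ i j, i ≤ j → ∀ z, ‖z‖ ≤ ρ i → ‖Θ z - Φ j z‖ ≤ δ i * 2 ^ i / 2 ^ j := by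
    intro i j hij z hz
    obtain ⟨a, ha, h2⟩ := lim i z hz
    rw [tendsto_nhds_unique (hΘ z) ha]
    exact h2 j hij
  have hd : Differentiable ℂ Θ := fun x => by
    obtain ⟨i, hi⟩ := big (‖x‖ + 2)
    exact diff_limit hΦ i (est i) hi
  have rob := fun j => r4 j Θ hd fun z hz => (est _ _ le_rfl z hz).trans
    (by rw [mul_div_cancel_right₀ _ (by positivity)])
  refine ⟨Θ, hd, fun z => ?_, fun p hp => ?_⟩
  · obtain ⟨i, hi⟩ := big ‖z‖
    exact (rob i).1 z hi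
  · obtain ⟨n, hn⟩ := (h.mem p).1 hp
    exact (rob n).2 p hn

/-- An entire map with injective derivative at `0` is biholomorphic near `0`. -/
theorem local_bihol {Φ : E → E} (hΦ : Differentiable ℂ Φ) (hi : Injective (fderiv ℂ Φ 0)) :
    ∃ (U V : Set E) (Ψ : E → E), IsOpen U ∧ IsOpen V ∧ 0 ∈ U ∧ BijOn Φ U V ∧
      DifferentiableOn ℂ Ψ V ∧ InvOn Ψ Φ U V := by
  have hb : Bijective (fderiv ℂ Φ 0) :=
    ⟨hi, (LinearMap.injective_iff_surjective (f := (fderiv ℂ Φ 0 : E →ₗ[ℂ] E))).1 hi⟩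
  obtain ⟨χ, c1, c2, c3, c4⟩ := exists_local_inverse
    (osgood isOpen_univ hΦ.differentiableOn 0 (mem_univ _)) hb
  obtain ⟨U, u1, u2, u3⟩ := _root_.eventually_nhds_iff.1 c3
  obtain ⟨V, v1, v2, v3⟩ := _root_.eventually_nhds_iff.1 (c4.and c1.eventually_analyticAt)
  have hd : DifferentiableOn ℂ χ V := fun y hy =>
    (v1 y hy).2.differentiableAt.differentiableWithinAt
  have hinv : InvOn χ Φ (U ∩ Φ ⁻¹' V) (V ∩ χ ⁻¹' U) :=
    ⟨fun x hx => u1 x hx.1, fun y hy => (v1 y hy.1).1⟩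
  refine ⟨U ∩ Φ ⁻¹' V, V ∩ χ ⁻¹' U, χ, u2.inter (v2.preimage hΦ.continuous),
    hd.continuousOn.isOpen_inter_preimage v2 u2, ⟨u3, v3⟩, hinv.bijOn (fun x hx => ⟨hx.2, ?_⟩)
    (fun y hy => ⟨hy.2, ?_⟩), hd.mono inter_subset_left, hinv⟩
  · rw [mem_preimage, u1 x hx.1]; exact hx.1
  · rw [mem_preimage, (v1 y hy.1).1]; exact hy.1

end Pool.Agent.MP_f7b0aa_an
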