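import Pool.Agent.MP_f7b0aa_an.Pos

attribute [-instance] ProperSMul.toContinuousSMul AddQuantale.instAddLeftMono
  IdemSemiring.toCanonicallyOrderedAdd RKHS.instFunLike AddQuantale.instAddRightMono
  NumberField.to_charZero covariant_swap_mul_of_covariant_mul
  NonarchimedeanAddGroup.toIsTopologicalAddGroup MonTypeEquivalenceMon.monMonoid
  LinearOrderedCommMonoidWithZero.toPosMulStrictMono TotallySeparatedSpace.t2Space
  Quantale.instMulRightMono LieAdmissibleRing.toNonUnitalNonAssocRing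
  NonarchimedeanRing.toIsTopologicalRing instCoeTOfCoeDep GrpTypeEquivalenceGrp.grpGroup
  NormedRing.toRing ContDiffMapSupportedInClass.toDFunLike
  IsValuativeTopology.instValuedValueGroupWithZeroOfIsUniformAddGroup IsOrderedMonoid.toMulLeftMono
  IsTopologicalTorsor.toContinuousSMul NonUnitalRing.toNonUnitalNonAssocRing

/-! The negative direction: slow Short `ℂ²` examples. -/

open Filter Topology Set Function Metric

namespace Pool.Agent.MP_f7b0aa_an

/-- The map `(z, w) ↦ (w + η z ^ e, z)`. -/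
noncomputable def hen (η : ℝ) (e : ℕ) : E ≃ E where
  toFun v := pt (v 1 + η * v 0 ^ e) (v 0)
  invFun v := pt (v 1) (v 0 - η * v 1 ^ e)
  left_inv v := ext2 (by simp) (by simp)
  right_inv v := ext2 (by simp) (by simp)

/-- The map `(z, w) ↦ (a z, b w)`. -/
noncomputable def dg {a b : ℝ} (ha : 0 < a) (hb : 0 < b) : E ≃ E where
  toFun v := pt (a * v 0) (b * v 1)
  invFun v := pt ((a : ℂ)⁻¹ * v 0) ((b : ℂ)⁻¹ * v 1)
  left_inv v := ext2 (by simp only [Fin.isValue, pt_zero, ne_eq, Complex.ofReal_eq_zero, ha.ne', not_false_eq_true, inv_mul_cancel_left₀, pt_one]) (by simp only [Fin.isValue, pt_zero, pt_one, ne_eq, Complex.ofReal_eq_zero, hb.ne', not_false_eq_true, inv_mul_cancel_left₀])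
  right_inv v := ext2 (by simp only [Fin.isValue, pt_zero, ne_eq, Complex.ofReal_eq_zero, ha.ne', not_false_eq_true, mul_inv_cancel_left₀, pt_one]) (by simp only [Fin.isValue, pt_zero, pt_one, ne_eq, Complex.ofReal_eq_zero, hb.ne', not_false_eq_true, mul_inv_cancel_left₀])

theorem hen_diff (η : ℝ) (e : ℕ) :
    Differentiable ℂ (hen η e) ∧ Differentiable ℂ (hen η e).symm :=
  ⟨diff_pt ((diff_co 1).add (((diff_co 0).pow e).const_mul _)) (diff_co 0),
    diff_pt (diff_co 1) ((diff_co 0).sub (((diff_co 1).pow e).const_mul _))⟩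

theorem dg_diff {a b : ℝ} (ha : 0 < a) (hb : 0 < b) :
    Differentiable ℂ (dg ha hb) ∧ Differentiable ℂ (dg ha hb).symm :=
  ⟨diff_pt ((diff_co 0).const_mul _) ((diff_co 1).const_mul _),
    diff_pt ((diff_co 0).const_mul _) ((diff_co 1).const_mul _)⟩

theorem hen_bound {η : ℝ} (hη : 0 ≤ η) {e : ℕ} (he : e ≠ 0) {v : E} (hv : ‖v‖ < 1) :
    (1 - η) * ‖v‖ ≤ ‖hen η e v‖ ∧ ‖hen η e v‖ ≤ (1 + η) * ‖v‖ := by
  have e1 : hen η e v = pt (v 1) (v 0) + pt (η * v 0 ^ e) 0 := ext2 (by simp [hen]) (by simp [hen])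
  have e2 : ‖pt (v 1) (v 0)‖ = ‖v‖ := by
    rw [← sq_eq_sq₀ (norm_nonneg _) (norm_nonneg _), norm_sq2, norm_sq2 v, pt_zero, pt_one, add_comm]
  have e3 : ‖pt (η * v 0 ^ e) 0‖ ≤ η * ‖v‖ := by
    rw [norm_pt_left, norm_mul, norm_pow, Complex.norm_real, Real.norm_of_nonneg hη]
    have := co_le v 0
    exact mul_le_mul_of_nonneg_left
      ((pow_le_of_le_one (norm_nonneg _) (by linarith) he).trans this) hη
  have h1 := norm_add_le (pt (v 1) (v 0)) (pt (η * v 0 ^ e) 0)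
  have h2 := norm_sub_le (pt (v 1) (v 0) + pt (η * v 0 ^ e) 0) (pt (η * v 0 ^ e) 0)
  rw [add_sub_cancel_right] at h2
  rw [e1]
  constructor <;> linarith only [e2, e3, h2, h1]

theorem dg_bound {a b : ℝ} (ha : 0 < a) (hb : 0 < b) (hab : b ≤ a) (v : E) :
    b * ‖v‖ ≤ ‖dg ha hb v‖ ∧ ‖dg ha hb v‖ ≤ a * ‖v‖ := by
  have e : ‖dg ha hb v‖ ^ 2 = a ^ 2 * ‖v 0‖ ^ 2 + b ^ 2 * ‖v 1‖ ^ 2 := by
    rw [norm_sq2]; simp only [Fin.isValue, dg, Equiv.coe_fn_mk, pt_zero, Complex.norm_mul, Complex.norm_real, Real.norm_eq_abs, mul_pow, sq_abs, pt_one]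
  have h : b ^ 2 ≤ a ^ 2 := by gcongr
  have h0 := mul_le_mul_of_nonneg_right h (sq_nonneg ‖v 0‖)
  have h1 := mul_le_mul_of_nonneg_right h (sq_nonneg ‖v 1‖)
  constructor <;> refine (abs_le_of_sq_le_sq' ?_ (by positivity)).2 <;>
    rw [e, mul_pow, norm_sq2 v] <;> linarith only [h0, h1]

/-- Choice of the times and degrees. -/
theorem neg_times {σ : ℕ → ℝ} (hm : Monotone σ) {L K κ : ℝ} (hL : 0 < L)
    (hs : ∀ n : ℕ, n * L ≤ σ n) (hsum : Summable fun n => 1 / σ n) (hK : 0 < K) (hκ : 0 < κ) :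
    ∃ τ e d : ℕ → ℕ, StrictMono τ ∧ d 0 = 1 ∧ (∀ i, d (i + 1) = d i * e i) ∧ (∀ i, 2 ≤ e i) ∧
      (∀ i, K * d (i + 2) ≤ σ (τ (i + 1)) - σ (τ i)) ∧
      ∀ n, ∑ i ∈ Finset.range n, ((τ (i + 1) - τ i : ℕ) : ℝ) / d (i + 1) ≤ κ := by
  classical
  have t1 : Tendsto σ atTop atTop :=
    tendsto_atTop_mono hs (tendsto_natCast_atTop_atTop.atTop_mul_const hL)
  have s0 : ∀ n, 0 ≤ σ n := fun n => le_trans (by positivity) (hs n)
  have ex : ∀ x : ℝ, ∃ t, x ≤ σ t := fun x => (t1.eventually_ge_atTop x).exists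
  obtain ⟨t₀, h1, h2⟩ := ((t1.eventually_ge_atTop (4 * K)).and
    ((tendsto_sum_nat_add fun n => 1 / σ n).eventually
      (gt_mem_nhds (show 0 < κ / (8 * K) by positivity)))).exists
  obtain ⟨τ, τ0, τ1, τ2⟩ : ∃ τ : ℕ → ℕ, τ 0 = t₀ ∧ (∀ i, 2 * σ (τ i) ≤ σ (τ (i + 1))) ∧
      ∀ i t, t < τ (i + 1) → σ t < 2 * σ (τ i) :=
    ⟨fun i => Nat.rec t₀ (fun _ t => Nat.find (ex (2 * σ t))) i, rfl,
      fun i => Nat.find_spec (ex _), fun i t ht => not_le.1 (Nat.find_min (ex _) ht)⟩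
  obtain ⟨d, d0, d1⟩ : ∃ d : ℕ → ℕ, d 0 = 1 ∧ ∀ i, d (i + 1) = d i * ⌊σ (τ i) / (2 * K * d i)⌋₊ :=
    ⟨fun i => Nat.rec 1 (fun i x => x * ⌊σ (τ i) / (2 * K * x)⌋₊) i, rfl, fun i => rfl⟩
  have stp : ∀ i, 0 < d i → 4 * K * d i ≤ σ (τ i) → 2 ≤ ⌊σ (τ i) / (2 * K * d i)⌋₊ ∧
      2 * K * d (i + 1) ≤ σ (τ i) ∧ σ (τ i) ≤ 4 * K * d (i + 1) := by
    intro i hd h
    have p : 0 < 2 * K * d i := by positivity
    have a : 2 ≤ ⌊σ (τ i) / (2 * K * d i)⌋₊ := Nat.le_floor (by
      rw [le_div_iff₀ p]; push_cast; linarith only [h])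
    have a' : (2 : ℝ) ≤ ⌊σ (τ i) / (2 * K * d i)⌋₊ := by exact_mod_cast a
    have b := Nat.floor_le (div_nonneg (s0 (τ i)) p.le)
    have c := Nat.lt_floor_add_one (σ (τ i) / (2 * K * d i))
    rw [le_div_iff₀ p] at b
    rw [div_lt_iff₀ p] at c
    rw [d1]; push_cast
    exact ⟨a, by linarith only [b], by linarith only [h, c]⟩
  have inv : ∀ i, 0 < d i ∧ 4 * K * d i ≤ σ (τ i) := by
    intro i
    induction i with
    | zero => rw [d0, τ0]; exact ⟨one_pos, by simpa using h1⟩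
    | succ i ih =>
      obtain ⟨a, b, -⟩ := stp i ih.1 ih.2
      exact ⟨by rw [d1]; exact Nat.mul_pos ih.1 (by omega), by linarith only [τ1 i, b]⟩
  have sp : ∀ i, 0 < σ (τ i) := fun i =>
    lt_of_lt_of_le (by have := (inv i).1; positivity) (inv i).2
  have sm : StrictMono τ := strictMono_nat_of_lt_succ fun i =>
    hm.reflect_lt (by linarith only [τ1 i, sp i])
  refine ⟨τ, fun i => ⌊σ (τ i) / (2 * K * d i)⌋₊, d, sm, d0, d1,
    fun i => (stp i (inv i).1 (inv i).2).1, fun i => ?_, fun n => ?_⟩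
  · linarith only [(stp (i + 1) (inv _).1 (inv _).2).2.1, τ1 i]
  have key : ∑ i ∈ Finset.range n, ((τ (i + 1) - τ i : ℕ) : ℝ) / d (i + 1) ≤
      8 * K * ∑ t ∈ Finset.Ico (τ 0) (τ n), 1 / σ t := by
    induction n with
    | zero => simp only [Finset.range_zero, Finset.sum_empty, Std.le_refl, Finset.Ico_eq_empty_of_le, one_div, mul_zero]
    | succ n ih =>
      rw [Finset.sum_range_succ, ← Finset.sum_Ico_consecutive _ (sm.monotone (Nat.zero_le n))
        (sm.monotone (Nat.le_succ n)), mul_add]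
      refine add_le_add ih ?_
      have dp : (0 : ℝ) < d (n + 1) := by exact_mod_cast (inv (n + 1)).1
      have := Finset.card_nsmul_le_sum (Finset.Ico (τ n) (τ (n + 1))) (fun t => 8 * K * (1 / σ t))
        (1 / d (n + 1)) (fun t ht => by
          rw [Finset.mem_Ico] at ht
          have q := (sp n).trans_le (hm ht.1)
          rw [mul_one_div, div_le_div_iff₀ dp q]
          linarith only [τ2 n t ht.2, (stp n (inv n).1 (inv n).2).2.2])
      rwa [Nat.card_Ico, nsmul_eq_mul, mul_one_div, ← Finset.mul_sum] at this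
  refine key.trans ?_
  rw [Finset.sum_Ico_eq_sum_range, τ0]
  have := ((summable_nat_add_iff t₀).2 hsum).sum_le_tsum (Finset.range (τ n - t₀))
    (fun i _ => one_div_nonneg.2 (s0 _))
  simp only [add_comm t₀]
  rw [lt_div_iff₀ (by positivity)] at h2
  nlinarith only [hK, h2, this]

section Seq

variable {P Q : ℕ → ℂ} {e d Δ : ℕ → ℕ} {η a K : ℝ}

theorem seq_upper (hη : 0 ≤ η) (ha : 0 ≤ a) (ha1 : a ≤ 1) (hK : 0 ≤ K)
    (hKη : Real.exp (-K) ≤ 1 - η) (hd : ∀ i, d (i + 1) = d i * e i) (hd1 : ∀ i, 1 ≤ d i)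
    (hP : ∀ i, P (i + 1) = (a : ℂ) ^ Δ i * (Q i + η * P i ^ e i))
    (hQ : ∀ i, ‖Q (i + 1)‖ ≤ Real.exp (-(K * d (i + 2))) * ‖P i‖)
    (h0 : ‖P 0‖ ≤ Real.exp (-(K * d 0))) (h1 : ‖Q 0‖ ≤ (1 - η) * Real.exp (-(K * d 1))) (i : ℕ) :
    ‖P i‖ ≤ Real.exp (-(K * d i)) ∧ ‖Q i‖ ≤ (1 - η) * Real.exp (-(K * d (i + 1))) := by
  induction i with
  | zero => exact ⟨h0, h1⟩
  | succ i ih =>
    constructor
    · have b1 : ‖P i‖ ^ e i ≤ Real.exp (-(K * d (i + 1))) := by
        refine (pow_le_pow_left₀ (norm_nonneg _) ih.1 _).trans (le_of_eq ?_)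
        rw [← Real.exp_nat_mul, hd]; push_cast; congr 1; ring
      have b2 := norm_add_le (Q i) (η * P i ^ e i)
      rw [norm_mul, norm_pow, Complex.norm_real, Real.norm_of_nonneg hη] at b2
      rw [hP, norm_mul, norm_pow, Complex.norm_real, Real.norm_of_nonneg ha]
      refine (mul_le_of_le_one_left (norm_nonneg _) (pow_le_one₀ ha ha1)).trans ?_
      linarith only [ih.2, mul_le_mul_of_nonneg_left b1 hη, b2]
    · refine (hQ i).trans ?_
      rw [mul_comm]
      refine mul_le_mul_of_nonneg_right (ih.1.trans (le_trans ?_ hKη)) (Real.exp_pos _).le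
      have : (1 : ℝ) ≤ d i := by exact_mod_cast hd1 i
      rw [Real.exp_le_exp]; nlinarith only [hK, this]

theorem seq_lower (hη : 0 < η) (hη1 : η ≤ 1) (ha : 0 < a) (ha1 : a < 1)
    (hK : Real.log 4 + Real.log (2 / η) + 1 + Real.log (2 / η) ≤ K)
    (hd : ∀ i, d (i + 1) = d i * e i) (hd2 : ∀ i, 2 ^ i ≤ d i)
    (hΔ : ∀ n, ∑ i ∈ Finset.range n, (Δ i : ℝ) / d (i + 1) ≤ 1 / Real.log (1 / a))
    (hP : ∀ i, P (i + 1) = (a : ℂ) ^ Δ i * (Q i + η * P i ^ e i))
    (hQ : ∀ i, ‖Q (i + 1)‖ ≤ Real.exp (-(K * d (i + 2))) * ‖P i‖) (hP1 : ∀ i, ‖P i‖ ≤ 1)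
    (h0 : 1 / 4 ≤ ‖P 0‖) (h1 : ‖Q 0‖ ≤ Real.exp (-(K * d 1))) (i : ℕ) :
    Real.exp (-((Real.log 4 + Real.log (2 / η) + 1) * d i)) ≤ ‖P i‖ := by
  have hL : 0 < Real.log (1 / a) := Real.log_pos (one_lt_one_div ha ha1)
  have hy : 0 ≤ Real.log (2 / η) := Real.log_nonneg (by rw [le_div_iff₀ hη]; linarith only [hη1, ha, ha1])
  have h4 : 0 ≤ Real.log 4 := Real.log_nonneg (by norm_num)
  have dp : ∀ i, (2 : ℝ) ^ i ≤ d i := fun i => by exact_mod_cast hd2 i
  have d1 : ∀ i, (1 : ℝ) ≤ d i := fun i => (one_le_pow₀ one_le_two).trans (dp i)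
  obtain ⟨A, A0, A1, A2⟩ : ∃ A : ℕ → ℝ, A 0 = Real.log 4 ∧ (∀ i, A i * d (i + 1) +
      Δ i * Real.log (1 / a) + Real.log (2 / η) ≤ A (i + 1) * d (i + 1)) ∧
      ∀ i, A i ≤ Real.log 4 + Real.log (2 / η) + 1 := by
    refine ⟨fun i => Real.log 4 + Real.log (2 / η) * (1 - 1 / 2 ^ i) +
      Real.log (1 / a) * ∑ j ∈ Finset.range i, (Δ j : ℝ) / d (j + 1), by simp, fun i => ?_,
      fun i => ?_⟩
    · have q : (0 : ℝ) < d (i + 1) := by linarith only [d1 (i + 1), ha, ha1]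
      have r : (1 : ℝ) ≤ (1 / 2 ^ i - 1 / 2 ^ (i + 1)) * d (i + 1) := by
        rw [show (1 : ℝ) / 2 ^ i - 1 / 2 ^ (i + 1) = 1 / 2 ^ (i + 1) by field_simp; ring,
          one_div, inv_mul_eq_div, one_le_div (by positivity)]
        exact dp _
      have u : (Δ i : ℝ) / d (i + 1) * d (i + 1) = Δ i := div_mul_cancel₀ _ q.ne'
      simp only [Finset.sum_range_succ]
      nlinarith only [mul_le_mul_of_nonneg_left r hy, hL, u]
    · have := mul_le_mul_of_nonneg_left (hΔ i) hL.le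
      rw [mul_one_div_cancel hL.ne'] at this
      have : 0 ≤ Real.log (2 / η) * (1 / 2 ^ i) := by positivity
      linarith
  have hQ' : ∀ i, ‖Q i‖ ≤ Real.exp (-(K * d (i + 1))) := fun i => by
    cases i with
    | zero => exact h1
    | succ i => exact (hQ i).trans (mul_le_of_le_one_right (Real.exp_pos _).le (hP1 i))
  have ee : Real.exp (-Real.log (2 / η)) = η / 2 := by
    rw [Real.exp_neg, Real.exp_log (by positivity), inv_div]
  have key : ∀ i, Real.exp (-(A i * d i)) ≤ ‖P i‖ := by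
    intro i
    induction i with
    | zero =>
      refine le_trans ?_ h0
      rw [one_div, ← Real.exp_log (show (0 : ℝ) < 4 by norm_num), ← Real.exp_neg, Real.exp_le_exp,
        A0]
      nlinarith only [d1 0, h4]
    | succ i ih =>
      have b1 : Real.exp (-(A i * d (i + 1))) ≤ ‖P i‖ ^ e i := by
        refine le_trans (le_of_eq ?_) (pow_le_pow_left₀ (Real.exp_pos _).le ih _)
        rw [← Real.exp_nat_mul, hd]; push_cast; congr 1; ring
      have b2 := norm_sub_le (Q i + η * P i ^ e i) (Q i)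
      rw [add_sub_cancel_left, norm_mul, norm_pow, Complex.norm_real,
        Real.norm_of_nonneg hη.le] at b2
      have b3 : ‖Q i‖ ≤ η / 2 * Real.exp (-(A i * d (i + 1))) := by
        refine (hQ' i).trans ?_
        rw [← ee, ← Real.exp_add, Real.exp_le_exp]
        nlinarith only [d1 (i + 1), A2 i, hK, hy]
      have b4 : a ^ Δ i = Real.exp (-(Δ i * Real.log (1 / a))) := by
        rw [one_div, Real.log_inv, mul_neg, neg_neg, Real.exp_nat_mul, Real.exp_log ha]
      rw [hP, norm_mul, norm_pow, Complex.norm_real, Real.norm_of_nonneg ha.le]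
      calc Real.exp (-(A (i + 1) * d (i + 1)))
          ≤ a ^ Δ i * (η / 2 * Real.exp (-(A i * d (i + 1)))) := by
            rw [b4, ← ee, ← Real.exp_add, ← Real.exp_add, Real.exp_le_exp]
            linarith only [A1 i]
        _ ≤ _ := by
            refine mul_le_mul_of_nonneg_left ?_ (by positivity)
            linarith only [mul_le_mul_of_nonneg_left b1 hη.le, b2, b3]
  refine le_trans ?_ (key i)
  rw [Real.exp_le_exp]
  nlinarith only [A2 i]

end Seq

/-- Three circles theorem in the form needed. -/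
theorem three_circles {g : ℂ → ℂ} (hg : Differentiable ℂ g) {l u a : ℝ} (hl : l < 0) (hu : 0 < u)
    (h1 : ∀ z, ‖z‖ ≤ Real.exp l → ‖g z‖ ≤ a) (h2 : ∀ z, ‖z‖ ≤ Real.exp u → ‖g z‖ ≤ 1) :
    ‖g 1‖ ≤ a ^ (u / (u - l)) := by
  have h := Complex.HadamardThreeLines.norm_le_interp_of_mem_verticalClosedStrip'
    (f := fun s => g (Complex.exp s)) (z := 0) (a := a) (b := 1) (l := l) (u := u) (by linarith)
    ⟨by simpa using hl.le, by simpa only [Complex.zero_re] using hu.le⟩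
    (hg.comp Complex.differentiable_exp).diffContOnCl
    ⟨1, by
      rintro _ ⟨z, hz, rfl⟩
      exact h2 _ (by rw [Complex.norm_exp, Real.exp_le_exp]; exact hz.2)⟩
    (fun z hz => h1 _ (by rw [Complex.norm_exp, show z.re = l from hz]))
    (fun z hz => h2 _ (by rw [Complex.norm_exp, show z.re = u from hz]))
  have e : 1 - (0 - l) / (u - l) = u / (u - l) := by
    have : u - l ≠ 0 := by linarith only [hl, hu]
    field_simp; ring
  simpa only [Complex.exp_zero, Real.one_rpow, mul_one, Complex.zero_re, e] using h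

/-- The negative direction. -/
theorem negative {c : ℕ → ℝ} {C D : ℝ} (hc : ∀ n, 0 < c n) (hC : ∀ n, c n ≤ C) (hCD : C < D)
    (hD : D < 1) (hsum : Summable fun n => 1 / S c n) :
    ∃ f, Adm c D f ∧ ∃ (U V : Set E) (p q : E), IsOpen U ∧ IsOpen V ∧ p ∈ U ∧ q ∈ V ∧
      p ∈ basin f ∧ q ∈ basin f ∧ ∀ γ : ℂ → E, Differentiable ℂ γ → (∀ z, γ z ∈ basin f) →
        γ 0 ∈ U → γ 1 ∉ V := by
  classical
  have hC0 : 0 < C := (hc 0).trans_le (hC 0)
  have hD0 : 0 < D := hC0.trans hCD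
  obtain ⟨η, a, hη, hη1, e1, e2⟩ : ∃ η a : ℝ, 0 < η ∧ η < 1 ∧ a * (1 - η) = C ∧ a * (1 + η) = D :=
    ⟨(D - C) / (D + C), (D + C) / 2, div_pos (by linarith) (by linarith),
      by rw [div_lt_one (by linarith)]; linarith, by field_simp; ring, by field_simp; ring⟩
  have hη' : 0 < 1 - η := by linarith
  have ha : 0 < a := by linarith only [hCD, hC0, e1, e2]
  have haD : a ≤ D := by linarith only [hCD, e1, e2]
  have hCa : C ≤ a := by linarith only [hCD, e1, e2]
  have ha1 : a < 1 := by linarith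
  obtain ⟨b, hb⟩ : ∃ b : ℕ → ℝ, ∀ t, b t * (1 - η) = c t :=
    ⟨fun t => c t / (1 - η), fun t => div_mul_cancel₀ _ hη'.ne'⟩
  have hb0 : ∀ t, 0 < b t := fun t => by nlinarith only [hb t, hc t, hη1]
  have hba : ∀ t, b t ≤ a := fun t => by nlinarith only [hb t, hC t, hη1, e1]
  have hL : 0 < Real.log (1 / a) := Real.log_pos (one_lt_one_div ha ha1)
  have hLC : 0 < Real.log (1 / C) := Real.log_pos (one_lt_one_div hC0 (by linarith))
  have hm : Monotone (S b) := monotone_nat_of_le_succ fun n => by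
    rw [S_succ]; linarith [log_le hb0 hba n]
  have cmp : ∀ n, Real.log (1 / a) * S c n ≤ Real.log (1 / C) * S b n := by
    intro n
    induction n with
    | zero => simp [S]
    | succ n ih =>
      have x1 := log_le hc hC n
      have x2 : Real.log (1 / a) ≤ Real.log (1 / C) :=
        Real.log_le_log (by positivity) (one_div_le_one_div_of_le hC0 hCa)
      have x3 : Real.log (1 / b n) = Real.log (1 / c n) - (Real.log (1 / C) - Real.log (1 / a)) := by
        rw [← hb n, ← e1]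
        simp only [one_div, Real.log_inv, Real.log_mul (hb0 n).ne' hη'.ne',
          Real.log_mul ha.ne' hη'.ne']
        ring
      rw [S_succ, S_succ, x3]
      linarith only [mul_nonneg (sub_nonneg.2 x1) (sub_nonneg.2 x2), ih]
  have hsb : Summable fun n => 1 / S b n := by
    refine Summable.of_norm_bounded_eventually_nat
      (hsum.mul_left (Real.log (1 / C) / Real.log (1 / a))) ?_
    filter_upwards [eventually_gt_atTop 0] with n hn
    have p1 : 0 < S b n := lt_of_lt_of_le (by positivity) (S_ge hb0 hba n)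
    have p2 : 0 < S c n := lt_of_lt_of_le (by positivity) (S_ge hc hC n)
    rw [Real.norm_of_nonneg (by positivity), div_mul_div_comm, mul_one,
      div_le_div_iff₀ p1 (by positivity), one_mul]
    exact cmp n
  have hy : 0 ≤ Real.log (2 / η) := Real.log_nonneg (by rw [le_div_iff₀ hη]; linarith only [hCD, hD, hC0, hη1])
  have h4 : 0 ≤ Real.log 4 := Real.log_nonneg (by norm_num)
  have hz : Real.log (1 - η) ≤ 0 := Real.log_nonpos hη'.le (by linarith only [hη])
  obtain ⟨A, hA⟩ : ∃ A, A = Real.log 4 + Real.log (2 / η) + 1 := ⟨_, rfl⟩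
  obtain ⟨K, hK⟩ : ∃ K, K = A + Real.log (2 / η) - Real.log (1 - η) + 1 := ⟨_, rfl⟩
  obtain ⟨τ, e, d, sm, d0, d1, he, hKd, hΔ⟩ := neg_times hm hL (S_ge hb0 hba) hsb (K := K)
    (by linarith only [hy, h4, hz, hA, hK]) (one_div_pos.2 hL)
  have d2 : ∀ i, 2 ^ i ≤ d i := fun i => by
    induction i with
    | zero => simp [d0]
    | succ i ih => rw [d1, pow_succ]; exact Nat.mul_le_mul ih (he i)
  have d3 : ∀ i, 1 ≤ d i := fun i => Nat.one_le_two_pow.trans (d2 i)
  obtain ⟨f, f1, f2⟩ : ∃ f : ℕ → E ≃ E,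
      (∀ i, f (τ i) = (hen η (e i)).trans (dg ha (hb0 (τ i)))) ∧
      ∀ t, (¬∃ i, τ i = t) → f t = dg ha (hb0 t) :=
    ⟨fun t => (extend τ (fun i => hen η (e i)) (fun _ => Equiv.refl E) t).trans (dg ha (hb0 t)),
      fun i => by simp only [sm.injective.extend_apply],
      fun t ht => by simp only [extend_apply' _ _ _ ht]; rfl⟩
  have hf : Adm c D f := by
    intro t
    by_cases ht : ∃ i, τ i = t
    · obtain ⟨i, rfl⟩ := ht
      rw [f1]
      refine ⟨(dg_diff ha (hb0 _)).1.comp (hen_diff η (e i)).1,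
        (hen_diff η (e i)).2.comp (dg_diff ha (hb0 _)).2, fun z hz => ?_⟩
      obtain ⟨x1, x2⟩ := hen_bound hη.le (e := e i) (by have := he i; omega) hz
      obtain ⟨x3, x4⟩ := dg_bound ha (hb0 (τ i)) (hba _) (hen η (e i) z)
      rw [Equiv.trans_apply, ← hb, ← e2, mul_assoc, mul_assoc]
      exact ⟨(mul_le_mul_of_nonneg_left x1 (hb0 _).le).trans x3,
        x4.trans (mul_le_mul_of_nonneg_left x2 ha.le)⟩
    · rw [f2 t ht]
      refine ⟨(dg_diff ha (hb0 t)).1, (dg_diff ha (hb0 t)).2, fun z _ => ?_⟩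
      obtain ⟨x3, x4⟩ := dg_bound ha (hb0 t) (hba _) z
      exact ⟨le_trans (mul_le_mul_of_nonneg_right (by nlinarith only [hb t, hb0 t, hη]) (norm_nonneg _)) x3,
        x4.trans (mul_le_mul_of_nonneg_right haD (norm_nonneg _))⟩
  have eb : ∀ s t, Real.exp (s - S b (t + 1)) = b t * Real.exp (s - S b t) := fun s t => by
    rw [S_succ, one_div, Real.log_inv, show s - (S b t + -Real.log (b t)) =
      Real.log (b t) + (s - S b t) by ring, Real.exp_add, Real.exp_log (hb0 t)]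
  have block : ∀ i z t, τ i + 1 ≤ t → t ≤ τ (i + 1) → iter f t z =
      pt ((a : ℂ) ^ (t - τ i) * (iter f (τ i) z 1 + η * iter f (τ i) z 0 ^ e i))
        (Real.exp (S b (τ i) - S b t) * iter f (τ i) z 0) := by
    intro i z t h1 h2
    induction t, h1 using Nat.le_induction with
    | base =>
      rw [iter_succ, f1, eb]
      exact ext2 (by simp only [Fin.isValue, hen, dg, Equiv.trans_apply, Equiv.coe_fn_mk, pt_zero, pt_one, add_tsub_cancel_left, pow_one, sub_self, Real.exp_zero, mul_one]) (by simp only [Fin.isValue, hen, dg, Equiv.trans_apply, Equiv.coe_fn_mk, pt_zero, pt_one, add_tsub_cancel_left, pow_one, sub_self, Real.exp_zero, mul_one])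
    | succ t h1 ih =>
      rw [iter_succ, ih (by omega), f2, eb, Nat.succ_sub (by omega)]
      · refine ext2 ?_ ?_ <;> simp only [Fin.isValue, dg, Complex.ofReal_exp, Complex.ofReal_sub, Equiv.coe_fn_mk, pt_zero, pt_one, Nat.succ_eq_add_one, Complex.ofReal_mul] <;> ring
      · rintro ⟨j, rfl⟩
        have := sm.lt_iff_lt.1 (show τ i < τ j by omega)
        have := sm.lt_iff_lt.1 (show τ j < τ (i + 1) by omega)
        omega
  have hP : ∀ z i, iter f (τ (i + 1)) z 0 = (a : ℂ) ^ (τ (i + 1) - τ i) *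
      (iter f (τ i) z 1 + η * iter f (τ i) z 0 ^ e i) := fun z i => by
    rw [block i z _ (sm (Nat.lt_succ_self i)) le_rfl, pt_zero]
  have hQ : ∀ z i, ‖iter f (τ (i + 1)) z 1‖ ≤
      Real.exp (-(K * d (i + 2))) * ‖iter f (τ i) z 0‖ := fun z i => by
    rw [block i z _ (sm (Nat.lt_succ_self i)) le_rfl, pt_one, norm_mul, Complex.norm_real,
      Real.norm_of_nonneg (Real.exp_pos _).le]
    gcongr
    linarith only [hKd i]
  have exh := hf.exh hc hD0.le hD
  have co : ∀ i : Fin 2, Continuous fun z => ‖iter f (τ 0) z i‖ := fun i =>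
    ((diff_co i).continuous.comp (exh.d _).continuous).norm
  refine ⟨f, hf, {z | ‖iter f (τ 0) z 0‖ < Real.exp (-(K * d 0)) ∧
      ‖iter f (τ 0) z 1‖ < (1 - η) * Real.exp (-(K * d 1))},
    {z | ‖iter f (τ 0) z‖ < 1 ∧ 1 / 4 < ‖iter f (τ 0) z 0‖ ∧
      ‖iter f (τ 0) z 1‖ < Real.exp (-(K * d 1))},
    (iter f (τ 0)).symm 0, (iter f (τ 0)).symm (pt (1 / 2) 0),
    (isOpen_lt (co 0) continuous_const).inter (isOpen_lt (co 1) continuous_const),
    (isOpen_lt (exh.d _).continuous.norm continuous_const).inter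
      ((isOpen_lt continuous_const (co 0)).inter (isOpen_lt (co 1) continuous_const)),
    by simp only [Fin.isValue, mem_ofPred_eq, Equiv.apply_symm_apply, PiLp.zero_apply, norm_zero, Real.exp_pos, sub_pos, hη1, mul_pos_iff_of_pos_left, and_self], by simp only [one_div, Fin.isValue, mem_ofPred_eq, Equiv.apply_symm_apply, norm_pt_left, norm_inv, Complex.norm_ofNat, pt_zero, pt_one, norm_zero, Real.exp_pos, and_true]; norm_num,
    (exh.mem _).2 ⟨τ 0, by simp only [Equiv.apply_symm_apply, norm_zero, zero_lt_one]⟩, (exh.mem _).2 ⟨τ 0, by simp only [one_div, Equiv.apply_symm_apply, norm_pt_left, norm_inv, Complex.norm_ofNat]; norm_num⟩,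
    fun γ hγ hΩ hU hV => ?_⟩
  have hopen := ((isOpen_lt (co 0) continuous_const).inter
    (isOpen_lt (co 1) continuous_const)).preimage hγ.continuous |>.mem_nhds hU
  obtain ⟨r, hr, hr2⟩ := Metric.nhds_basis_closedBall.mem_iff.1 hopen
  obtain ⟨l, hl, hlr⟩ : ∃ l : ℝ, l < 0 ∧ Real.exp l ≤ r :=
    ⟨min (-1) (Real.log r), (min_le_left _ _).trans_lt (by norm_num),
      (Real.exp_le_exp.2 (min_le_right _ _)).trans (Real.exp_log hr).le⟩
  have hA0 : 0 < A := by linarith only [hCD, hD, hC0, hy, h4, hA]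
  obtain ⟨u, hu⟩ : ∃ u, u = A * -l + 1 := ⟨_, rfl⟩
  have hu0 : 0 < u := by nlinarith only [hy, h4, hA, hl, hu]
  obtain ⟨i, hi⟩ := (sm.tendsto_atTop.eventually (exh.compact
    ((isCompact_closedBall (0 : ℂ) (Real.exp u)).image hγ.continuous)
    (by rintro _ ⟨z, -, rfl⟩; exact hΩ z) one_pos)).exists
  have up := three_circles (g := fun z => iter f (τ i) (γ z) 0)
    ((diff_co 0).comp ((exh.d _).comp hγ)) hl hu0 (a := Real.exp (-(K * d i)))
    (fun z hz => by
      obtain ⟨y1, y2⟩ := hr2 (mem_closedBall_zero_iff.2 (hz.trans hlr))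
      exact (seq_upper (K := K) (P := fun j => iter f (τ j) (γ z) 0)
        (Q := fun j => iter f (τ j) (γ z) 1) hη.le ha.le ha1.le (by linarith) (by
        rw [← Real.exp_log hη', Real.exp_le_exp]; linarith only [hy, h4, hA, hK]) d1 d3 (hP _) (hQ _)
        (le_of_lt y1) (le_of_lt y2) i).1)
    (fun z hz => (co_le _ 0).trans (hi _ ⟨z, by simpa using hz, rfl⟩))
  have lo := seq_lower hη hη1.le ha ha1 (K := K) (by linarith only [hz, hA, hK]) d1 d2 hΔ (hP (γ 1)) (hQ _)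
    (fun j => (co_le _ 0).trans ((hf.bound hc hD0.le hD.le (sm.monotone (Nat.zero_le j))
      hV.1).2.trans (mul_le_one₀ (pow_le_one₀ hD0.le hD.le) (norm_nonneg _) hV.1.le)))
    hV.2.1.le hV.2.2.le i
  have fin := lo.trans up
  rw [← Real.exp_mul, Real.exp_le_exp, ← hA, neg_mul, neg_le_neg_iff, mul_right_comm] at fin
  have dp : (0 : ℝ) < d i := by exact_mod_cast d3 i
  have := le_of_mul_le_mul_right fin dp
  rw [← mul_div_assoc, div_le_iff₀ (by linarith only [hl, hu0])] at this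
  nlinarith only [hy, hz, hK, hu, hu0, this]

end Pool.Agent.MP_f7b0aa_an
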