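import Pool.Agent.MP_f7b0aa_an.Iter

/-! Definitions and the positive direction. -/

open Filter Topology Set Function Metric

namespace Pool.Agent.MP_f7b0aa_an

/-- `iter f n = f_{n-1} ∘ ⋯ ∘ f_0`. -/
def iter (f : ℕ → E ≃ E) : ℕ → E ≃ E
  | 0 => Equiv.refl E
  | n + 1 => (iter f n).trans (f n)

/-- Every `f n` is a holomorphic automorphism of `ℂ²` with `c n ‖z‖ ≤ ‖f n z‖ ≤ D ‖z‖` on the
open unit ball. -/
def Adm (c : ℕ → ℝ) (D : ℝ) (f : ℕ → E ≃ E) : Prop :=
  ∀ n, Differentiable ℂ (f n) ∧ Differentiable ℂ (f n).symm ∧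
    ∀ z, ‖z‖ < 1 → c n * ‖z‖ ≤ ‖f n z‖ ∧ ‖f n z‖ ≤ D * ‖z‖

/-- The non-autonomous basin of attraction of the origin. -/
def basin (f : ℕ → E ≃ E) : Set E := {z | Tendsto (fun n => iter f n z) atTop (𝓝 0)}

/-- `S c n = ∑_{t<n} log (1 / c t)`. -/
noncomputable def S (c : ℕ → ℝ) (n : ℕ) : ℝ := ∑ t ∈ Finset.range n, Real.log (1 / c t)

theorem iter_succ (f : ℕ → E ≃ E) (n : ℕ) (z : E) : iter f (n + 1) z = f n (iter f n z) := rfl

theorem S_succ (c : ℕ → ℝ) (n : ℕ) : S c (n + 1) = S c n + Real.log (1 / c n) :=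
  Finset.sum_range_succ _ _

variable {c : ℕ → ℝ} {C D : ℝ} {f : ℕ → E ≃ E}

theorem Adm.diff (h : Adm c D f) (n : ℕ) :
    Differentiable ℂ (iter f n) ∧ Differentiable ℂ (iter f n).symm := by
  induction n with
  | zero => exact ⟨differentiable_id, differentiable_id⟩
  | succ n ih => exact ⟨(h n).1.comp ih.1, ih.2.comp (h n).2.1⟩

theorem Adm.bound (h : Adm c D f) (hc : ∀ n, 0 < c n) (hD0 : 0 ≤ D) (hD : D ≤ 1) {m n : ℕ}
    (hmn : m ≤ n) {z : E} (hz : ‖iter f m z‖ < 1) :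
    Real.exp (S c m - S c n) * ‖iter f m z‖ ≤ ‖iter f n z‖ ∧
      ‖iter f n z‖ ≤ D ^ (n - m) * ‖iter f m z‖ := by
  induction n, hmn using Nat.le_induction with
  | base => simp
  | succ n hmn ih =>
    have h1 : ‖iter f n z‖ < 1 :=
      (ih.2.trans (mul_le_of_le_one_left (norm_nonneg _) (pow_le_one₀ hD0 hD))).trans_lt hz
    obtain ⟨h2, h3⟩ := (h n).2.2 _ h1
    rw [iter_succ]
    constructor
    · refine le_trans ?_ h2
      rw [S_succ, one_div, Real.log_inv, show S c m - (S c n + -Real.log (c n)) =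
        Real.log (c n) + (S c m - S c n) by ring, Real.exp_add, Real.exp_log (hc n), mul_assoc]
      exact mul_le_mul_of_nonneg_left ih.1 (hc n).le
    · rw [Nat.succ_sub hmn, pow_succ', mul_assoc]
      exact h3.trans (mul_le_mul_of_nonneg_left ih.2 hD0)

theorem Adm.exh (h : Adm c D f) (hc : ∀ n, 0 < c n) (hD0 : 0 ≤ D) (hD : D < 1) :
    Exh (iter f) (basin f) := by
  have dec : ∀ n, ∀ η > 0, ∀ᶠ m in atTop, ∀ z, ‖iter f n z‖ < 1 → ‖iter f m z‖ ≤ η := by
    intro n η hη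
    have h1 := ((tendsto_pow_atTop_nhds_zero_of_lt_one hD0 hD).comp
      (tendsto_sub_atTop_nat n)).eventually (gt_mem_nhds hη)
    filter_upwards [h1, eventually_ge_atTop n] with m hm hnm z hz
    refine (h.bound hc hD0 hD.le hnm hz).2.trans ?_
    exact (mul_le_of_le_one_right (by positivity) hz.le).trans hm.le
  refine ⟨fun j => (h.diff j).1, fun j => (h.diff j).2, fun z => ⟨fun hz => ?_, ?_⟩, dec⟩
  · exact (hz.norm.eventually (gt_mem_nhds (by simp))).exists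
  · rintro ⟨n, hn⟩
    refine Metric.tendsto_nhds.2 fun ε hε => ?_
    filter_upwards [dec n _ (half_pos hε)] with m hm
    rw [dist_zero_right]
    linarith [hm z hn]

theorem Adm.zero_mem (h : Adm c D f) (hc : ∀ n, 0 < c n) (hD0 : 0 ≤ D) (hD : D < 1) :
    (0 : E) ∈ basin f := ((h.exh hc hD0 hD).mem 0).2 ⟨0, by simp [iter]⟩

theorem log_le (hc : ∀ n, 0 < c n) (hC : ∀ n, c n ≤ C) (n : ℕ) :
    Real.log (1 / C) ≤ Real.log (1 / c n) :=
  Real.log_le_log (one_div_pos.2 ((hc n).trans_le (hC n)))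
    (one_div_le_one_div_of_le (hc n) (hC n))

theorem S_ge (hc : ∀ n, 0 < c n) (hC : ∀ n, c n ≤ C) (n : ℕ) : n * Real.log (1 / C) ≤ S c n := by
  induction n with
  | zero => simp [S]
  | succ n ih => rw [S_succ]; push_cast; linarith [log_le hc hC n]

/-- Choice of the radii. -/
theorem radii {s : ℕ → ℝ} (hm : Monotone s) {L δ a : ℝ} (hL : 0 < L) (hs : ∀ n : ℕ, n * L ≤ s n)
    (hns : ¬Summable fun n => 1 / s n) (hδ : 0 < δ) (ha : 0 < a) (B : ℝ) (q : ℕ) :
    ∃ R : ℕ → ℝ, R 0 = 1 / 8 ∧ Monotone R ∧ Tendsto R atTop atTop ∧ ∀ j, R (j + 1) / R j = 1 ∨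
      ∃ k : ℕ, B ≤ s (2 ^ (j + q + 1)) ∧ a * s (2 ^ (j + q + 1)) ≤ k ∧ 1 ≤ R (j + 1) / R j ∧
        Real.exp (-δ) ^ 2 ^ (j + q) * (k * (R (j + 1) / R j) ^ k) ≤ 1 := by
  classical
  have ev : ∀ᶠ n : ℕ in atTop, B ≤ s n ∧ 1 ≤ s n ∧ a * (n : ℝ) ^ 2 + 1 ≤ Real.exp (δ * n / 4) := by
    have t1 : Tendsto s atTop atTop :=
      tendsto_atTop_mono hs (tendsto_natCast_atTop_atTop.atTop_mul_const hL)
    have t2 : Tendsto (fun n : ℕ => δ * n / 4) atTop atTop :=
      (tendsto_natCast_atTop_atTop.const_mul_atTop hδ).atTop_div_const (by norm_num)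
    have t3 := ((tendsto_poly_exp 2 (16 * a / δ ^ 2 + 1)).comp t2).eventually (gt_mem_nhds one_pos)
    filter_upwards [t1.eventually_ge_atTop B, t1.eventually_ge_atTop 1, t3] with n h1 h2 h3
    refine ⟨h1, h2, ?_⟩
    rw [comp_apply, Real.exp_neg, ← mul_assoc, mul_inv_lt_iff₀ (Real.exp_pos _), one_mul] at h3
    refine le_trans ?_ h3.le
    have e : a * (n : ℝ) ^ 2 = 16 * a / δ ^ 2 * (δ * n / 4) ^ 2 := by field_simp; ring
    have x0 : 0 ≤ δ * n / 4 := by positivity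
    have y0 : 0 ≤ 16 * a / δ ^ 2 := by positivity
    rw [e]
    nlinarith [mul_nonneg y0 x0, sq_nonneg (δ * n / 4)]
  obtain ⟨N, hN⟩ := eventually_atTop.1 ev
  let k : ℕ → ℕ := fun n => ⌈a * s n⌉₊
  let l : ℕ → ℝ := fun n => if N ≤ n ∧ s n ≤ (n : ℝ) ^ 2 then δ * n / (4 * k n) else 0
  have l0 : ∀ n, 0 ≤ l n := fun n => by
    simp only [l]; split_ifs
    · positivity
    · exact le_rfl
  let R : ℕ → ℝ := fun j => Real.exp (∑ i ∈ Finset.range j, l (2 ^ (i + q + 1))) / 8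
  have hq : ∀ j, R (j + 1) / R j = Real.exp (l (2 ^ (j + q + 1))) := fun j => by
    simp only [R, Finset.sum_range_succ, Real.exp_add]
    field_simp
  refine ⟨R, by simp [R], monotone_nat_of_le_succ fun j => ?_, ?_, fun j => ?_⟩
  · simp only [R, Finset.sum_range_succ]
    gcongr
    linarith [l0 (2 ^ (j + q + 1))]
  · refine (Real.tendsto_exp_atTop.comp ?_).atTop_div_const (by norm_num)
    refine (not_summable_iff_tendsto_nat_atTop_of_nonneg fun i => l0 _).1 fun hsum => hns ?_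
    have s0 : ∀ n, 0 ≤ s n := fun n => le_trans (by positivity) (hs n)
    refine (summable_condensed_iff_of_nonneg (fun n => one_div_nonneg.2 (s0 n))
      (fun m n hm0 hmn => one_div_le_one_div_of_le
        (lt_of_lt_of_le (by positivity) (hs m)) (hm hmn))).1 ?_
    refine (summable_nat_add_iff (q + 1)).1 ?_
    refine Summable.of_norm_bounded_eventually_nat
      ((hsum.mul_left (4 * (a + 1) / δ)).add summable_geometric_two) ?_
    filter_upwards [eventually_ge_atTop N] with j hj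
    have hn : N ≤ 2 ^ (j + q + 1) := by
      have := Nat.lt_two_pow_self (n := j + q + 1)
      omega
    have hn2 : (2 : ℝ) ^ j ≤ ((2 ^ (j + q + 1) : ℕ) : ℝ) := by
      push_cast; exact pow_le_pow_right₀ one_le_two (by omega)
    have e : (2 : ℝ) ^ (j + (q + 1)) = ((2 ^ (j + q + 1) : ℕ) : ℝ) := by push_cast; rfl
    rw [e, ← add_assoc]
    generalize 2 ^ (j + q + 1) = n at hn hn2 ⊢
    obtain ⟨-, h2, -⟩ := hN n hn
    have g0 : (0 : ℝ) < 2 ^ j := by positivity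
    have n0 : (0 : ℝ) < n := g0.trans_le hn2
    rw [Real.norm_of_nonneg (by positivity), mul_one_div]
    by_cases hg : s n ≤ (n : ℝ) ^ 2
    · have k0 : (0 : ℝ) < k n := by
        exact_mod_cast Nat.ceil_pos.2 (by positivity)
      have k1 : (k n : ℝ) ≤ (a + 1) * s n := by
        have := Nat.ceil_lt_add_one (a := a * s n) (by positivity)
        simp only [k]; linarith
      have : n / s n ≤ 4 * (a + 1) / δ * l n := by
        simp only [l, if_pos (And.intro hn hg)]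
        rw [show 4 * (a + 1) / δ * (δ * n / (4 * k n)) = n * (a + 1) / k n by field_simp,
          div_le_div_iff₀ (by linarith) k0, mul_assoc]
        gcongr
      exact this.trans (le_add_of_nonneg_right (by positivity))
    · push Not at hg
      have : n / s n ≤ (1 / 2) ^ j := by
        rw [one_div, inv_pow, div_le_iff₀ (by linarith), inv_mul_eq_div, le_div_iff₀ g0]
        nlinarith
      exact this.trans (le_add_of_nonneg_left (by have := l0 n; positivity))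
  · rw [hq]
    have e : ((2 ^ (j + q + 1) : ℕ) : ℝ) = 2 * ((2 ^ (j + q) : ℕ) : ℝ) := by push_cast; ring
    generalize 2 ^ (j + q + 1) = n at e ⊢
    generalize 2 ^ (j + q) = n' at e ⊢
    by_cases hg : N ≤ n ∧ s n ≤ (n : ℝ) ^ 2
    · obtain ⟨h1, h2, h3⟩ := hN n hg.1
      have k0 : (0 : ℝ) < k n := by
        exact_mod_cast Nat.ceil_pos.2 (by positivity)
      have k1 : (k n : ℝ) ≤ Real.exp (δ * n / 4) := by
        have := Nat.ceil_lt_add_one (a := a * s n) (by positivity)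
        have := mul_le_mul_of_nonneg_left hg.2 ha.le
        simp only [k]; linarith
      refine Or.inr ⟨k n, h1, Nat.le_ceil _, Real.one_le_exp (l0 n), ?_⟩
      simp only [l, if_pos hg]
      rw [← Real.exp_nat_mul, ← Real.exp_nat_mul,
        show k n * (δ * n / (4 * k n)) = δ * n / 4 by field_simp]
      calc _ ≤ Real.exp (n' * -δ) * (Real.exp (δ * n / 4) * Real.exp (δ * n / 4)) := by gcongr
        _ = 1 := by
          rw [← Real.exp_add, ← Real.exp_add, e, Real.exp_eq_one_iff]; ring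
    · left
      simp only [l, if_neg hg, Real.exp_zero]

theorem theta_le {L ε s : ℝ} {j k : ℕ} (hL : 0 < L) (hε : 0 < ε) (hε1 : ε ≤ 1)
    (hB : 2 ^ 43 / ε ≤ s) (hj : (j + 1 : ℕ) * L ≤ s) (hk : (26 + 2 / L) * s ≤ k) :
    2 / 2 ^ k ≤ min (mu (Real.exp (-s)) ^ 2 / 16) (4 * ε * mu (Real.exp (-s)) / 2 ^ (j + 1)) := by
  have X1 : 2 ^ 43 / ε ≤ Real.exp s := by linarith [Real.add_one_le_exp s]
  have X2 : (2 : ℝ) ^ 43 ≤ 2 ^ 43 / ε := by rw [le_div_iff₀ hε]; nlinarith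
  have J : (2 : ℝ) ^ (j + 1) ≤ Real.exp (s / L) := by
    calc (2 : ℝ) ^ (j + 1) ≤ Real.exp 1 ^ (j + 1) := by
          gcongr; linarith [Real.add_one_le_exp 1]
      _ = Real.exp ((j + 1 : ℕ) * 1) := (Real.exp_nat_mul _ _).symm
      _ ≤ _ := by rw [Real.exp_le_exp, le_div_iff₀ hL, mul_one]; exact hj
  have K : Real.exp s ^ 13 * 2 ^ (j + 1) ≤ 2 ^ k := by
    calc Real.exp s ^ 13 * 2 ^ (j + 1) ≤ Real.exp s ^ 13 * Real.exp (s / L) := by gcongr
      _ = Real.exp ((26 + 2 / L) * s * (1 / 2)) := by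
        rw [← Real.exp_nat_mul, ← Real.exp_add]; congr 1; push_cast; ring
      _ ≤ Real.exp (k * Real.log 2) := by
        rw [Real.exp_le_exp]
        exact mul_le_mul hk (by linarith [Real.log_two_gt_d9]) (by norm_num) (by positivity)
      _ = 2 ^ k := by rw [Real.exp_nat_mul, Real.exp_log two_pos]
  rw [mu, Real.exp_neg]
  generalize Real.exp s = X at X1 K
  have X0 : 1 ≤ X := by linarith [show (1 : ℝ) ≤ 2 ^ 43 by norm_num]
  have J0 : (1 : ℝ) ≤ 2 ^ (j + 1) := one_le_pow₀ one_le_two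
  refine le_trans (div_le_div_of_nonneg_left zero_le_two (by positivity) K) (le_min ?_ ?_)
  · rw [show (X⁻¹ ^ 6 / 2 ^ 19) ^ 2 / 16 = 2 / (X ^ 12 * 2 ^ 43) by field_simp; norm_num]
    refine div_le_div_of_nonneg_left zero_le_two (by positivity) ?_
    calc X ^ 12 * 2 ^ 43 ≤ X ^ 12 * X * 1 := by rw [mul_one]; gcongr; linarith
      _ ≤ _ := by rw [← pow_succ]; gcongr
  · rw [show 4 * ε * (X⁻¹ ^ 6 / 2 ^ 19) / 2 ^ (j + 1) = 2 / (X ^ 6 * (2 ^ 18 / ε) * 2 ^ (j + 1)) by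
      field_simp; norm_num]
    refine div_le_div_of_nonneg_left zero_le_two (by positivity) ?_
    have : 2 ^ 18 / ε ≤ X := le_trans (by gcongr <;> norm_num) X1
    calc X ^ 6 * (2 ^ 18 / ε) * 2 ^ (j + 1) ≤ X ^ 6 * X * 2 ^ (j + 1) := by gcongr
      _ ≤ _ := by rw [← pow_succ]; gcongr; norm_num

/-- Step C for an admissible sequence. -/
theorem Adm.near_id (h : Adm c D f) (hc : ∀ n, 0 < c n) (hC : ∀ n, c n ≤ C) (hC1 : C < 1)
    (hD0 : 0 < D) (hD : D < 1) (hns : ¬Summable fun n => 1 / S c n) (q : ℕ) {ε : ℝ} (hε : 0 < ε) :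
    ∃ G : E → E, Differentiable ℂ G ∧ (∀ z, G z ∈ basin f) ∧
      ∀ z, ‖z‖ ≤ 1 / 16 → ‖iter f (2 ^ q) (G z) - z‖ ≤ ε := by
  wlog hε1 : ε ≤ 1 / 8 generalizing ε
  · obtain ⟨G, h1, h2, h3⟩ := this (ε := 1 / 8) (by norm_num) le_rfl
    exact ⟨G, h1, h2, fun z hz => (h3 z hz).trans (not_le.1 hε1).le⟩
  have hC0 : 0 < C := (hc 0).trans_le (hC 0)
  have hL : 0 < Real.log (1 / C) := Real.log_pos (one_lt_one_div hC0 hC1)
  have hm : Monotone (S c) := monotone_nat_of_le_succ fun n => by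
    rw [S_succ]; linarith [log_le hc hC n]
  have s0 : ∀ n, 0 ≤ S c n := fun n => le_trans (by positivity) (S_ge hc hC n)
  obtain ⟨R, r0, r1, r2, r3⟩ := radii hm hL (S_ge hc hC) hns (δ := -Real.log D)
    (neg_pos.2 (Real.log_neg hD0 hD)) (a := 26 + 2 / Real.log (1 / C)) (by positivity)
    (2 ^ 43 / ε) q
  rw [neg_neg, Real.exp_log hD0] at r3
  have mp : ∀ x, 0 < mu (Real.exp x) := fun x => by unfold mu; positivity
  have bd : ∀ i j, i ≤ j → ∀ z, ‖z‖ < 1 →
      Real.exp (S c i - S c j) * ‖z‖ ≤ ‖iter f j ((iter f i).symm z)‖ ∧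
        ‖iter f j ((iter f i).symm z)‖ ≤ D ^ (j - i) * ‖z‖ := fun i j hij z hz => by
    simpa using h.bound hc hD0.le hD.le hij (z := (iter f i).symm z) (by simpa using hz)
  obtain ⟨G, g1, g2, g3⟩ := iterC (fun j => iter f (2 ^ (j + q))) (fun j => (h.diff _).1)
    (fun j => (h.diff _).2) (c := fun j => Real.exp (-S c (2 ^ (j + q))))
    (d := fun j => D ^ 2 ^ (j + q))
    (θ := fun j => min (mu (Real.exp (-S c (2 ^ (j + 1 + q)))) ^ 2 / 16)
      (4 * ε * mu (Real.exp (-S c (2 ^ (j + 1 + q)))) / 2 ^ (j + 1))) hε hε1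
    (fun j => Real.exp_pos _) (fun j => Real.exp_le_one_iff.2 (neg_nonpos.2 (s0 _)))
    (fun j => by positivity) (fun j => pow_le_one₀ hD0.le hD.le)
    (fun i j hij z hz => by
      obtain ⟨b1, b2⟩ := bd (2 ^ (i + q)) (2 ^ (j + q))
        (Nat.pow_le_pow_right two_pos (by omega)) z hz
      refine ⟨le_trans ?_ b1,
        b2.trans (mul_le_of_le_one_left (norm_nonneg _) (pow_le_one₀ hD0.le hD.le))⟩
      gcongr
      linarith [s0 (2 ^ (i + q))])
    (fun j z hz => by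
      have := (bd (2 ^ (j + q)) (2 ^ (j + 1 + q))
        (Nat.pow_le_pow_right two_pos (by omega)) z hz).2
      rwa [show 2 ^ (j + 1 + q) - 2 ^ (j + q) = 2 ^ (j + q) by
        rw [add_right_comm, pow_succ]; omega] at this)
    r0 r1 r2
    (fun j => by
      rcases r3 j with r | ⟨k, k1, k2, k3, k4⟩
      · rw [r]
        exact AP.trivial (by have := mp (-S c (2 ^ (j + 1 + q))); positivity)
          (pow_le_one₀ hD0.le hD.le)
      · refine AP.of_taylor ?_ k3 (by positivity) k4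
        rw [add_right_comm j 1 q]
        refine theta_le hL hε (by linarith) k1 (le_trans ?_ (S_ge hc hC _)) k2
        gcongr
        have := Nat.lt_two_pow_self (n := j + q + 1)
        omega)
    (fun j => by have := mp (-S c (2 ^ (j + 1 + q))); positivity)
    (fun j => by
      have := min_le_left (mu (Real.exp (-S c (2 ^ (j + 1 + q)))) ^ 2 / 16)
        (4 * ε * mu (Real.exp (-S c (2 ^ (j + 1 + q)))) / 2 ^ (j + 1))
      have := pow_pos (mp (-S c (2 ^ (j + 1 + q)))) 2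
      linarith)
    (fun j => by
      have h1 := min_le_right (mu (Real.exp (-S c (2 ^ (j + 1 + q)))) ^ 2 / 16)
        (4 * ε * mu (Real.exp (-S c (2 ^ (j + 1 + q)))) / 2 ^ (j + 1))
      have h2 := mp (-S c (2 ^ (j + 1 + q)))
      refine (mul_le_mul_of_nonneg_left (div_le_div_of_nonneg_right h1 (by norm_num))
        (by positivity)).trans (le_of_eq ?_)
      field_simp
      norm_num)
  refine ⟨G, g1, fun z => ?_, by simpa using g3⟩
  obtain ⟨i, hi⟩ := g2 z
  exact ((h.exh hc hD0.le hD).mem _).2 ⟨_, hi⟩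

/-- The positive direction. -/
theorem Adm.positive (h : Adm c D f) (hc : ∀ n, 0 < c n) (hC : ∀ n, c n ≤ C) (hC1 : C < 1)
    (hD0 : 0 < D) (hD : D < 1) (hns : ¬Summable fun n => 1 / S c n) {p : E} (hp : p ∈ basin f) :
    ∃ Φ : E → E, Differentiable ℂ Φ ∧ range Φ = basin f ∧ Φ 0 = p ∧
      ∃ (U V : Set E) (Ψ : E → E), IsOpen U ∧ IsOpen V ∧ 0 ∈ U ∧ BijOn Φ U V ∧
        DifferentiableOn ℂ Ψ V ∧ InvOn Ψ Φ U V := by
  obtain ⟨Θ, t1, t2, t3⟩ := (h.exh hc hD0.le hD).surj (h.zero_mem hc hD0.le hD)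
    (frequently_atTop.2 fun q => ⟨2 ^ q, Nat.lt_two_pow_self.le,
      fun ε hε => h.near_id hc hC hC1 hD0 hD hns q hε⟩)
  obtain ⟨z, hz, hi⟩ := t3 p hp
  have hd : Differentiable ℂ fun x => Θ (x + z) := t1.comp (differentiable_id.add_const z)
  refine ⟨fun x => Θ (x + z), hd, Subset.antisymm ?_ fun y hy => ?_, by simpa using hz,
    local_bihol hd ?_⟩
  · rintro _ ⟨x, rfl⟩; exact t2 _
  · obtain ⟨x, hx, -⟩ := t3 y hy
    exact ⟨x - z, by simpa using hx⟩
  · rwa [fderiv_comp_add_right, zero_add]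

end Pool.Agent.MP_f7b0aa_an
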